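import Mathlib
import Pool.Agent.E8helper1.CT.Nondeg
import Pool.Agent.E8helper1.AP.Glob

/-!
# The Lie algebra of the operators that annihilate a family of forms

The trace form is nondegenerate if all stable subspaces have stable complements, and the orthogonal
projection to the Lie algebra, a form of degree four, determines its normalizer.
-/

set_option autoImplicit false
set_option linter.unusedSectionVars false

namespace Pool.Agent.E8helper1.TC

open Module TensorProduct Pool.Agent.H204R3.SP Pool.Agent.H204R3.GP Pool.Agent.W522.U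
  Pool.Agent.W528.Odd
open Pool.Agent.E8helper1.AP (Jb exists_jb A1 A1_apply span_A1 exists_orth_proj orth_unique
  trace_nondeg)
open Pool.Agent.E8helper1.CT

attribute [local instance 100] LieRing.ofAssociativeRing

noncomputable section

/-- Families of multilinear forms. -/
abbrev Fam (k V : Type) [Field k] [AddCommGroup V] [Module k V] :=
  ∀ r : ℕ, Set (MultilinearMap k (fun _ : Fin r => V) k)

variable {k : Type} [Field k] {V : Type} [AddCommGroup V] [Module k V]

/-- The Lie algebra of the operators that annihilate all forms of the family. -/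
def lie (T : Fam k V) : Submodule k (Module.End k V) where
  carrier := {X | ∀ r, ∀ φ ∈ T r, Kills X φ}
  zero_mem' := by
    intro m φ _ v
    refine Finset.sum_eq_zero fun k _ => ?_
    rw [LinearMap.zero_apply]
    exact φ.map_coord_zero k (Function.update_self _ _ _)
  add_mem' := by
    intro X Y hX hY m φ hφ v
    have h1 := hX m φ hφ v
    have h2 := hY m φ hφ v
    have h3 := congrArg₂ (fun x y : k => x + y) h1 h2
    simp only [add_zero] at h3
    rw [← h3, ← Finset.sum_add_distrib]
    refine Finset.sum_congr rfl fun k _ => ?_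
    rw [LinearMap.add_apply, MultilinearMap.map_update_add]
  smul_mem' := by
    intro c X hX m φ hφ v
    have h1 := hX m φ hφ v
    rw [← mul_zero c, ← h1, Finset.mul_sum]
    refine Finset.sum_congr rfl fun k _ => ?_
    rw [LinearMap.smul_apply, MultilinearMap.map_update_smul, smul_eq_mul]

theorem lie_bracket {T : Fam k V} {X Y : Module.End k V} (hX : X ∈ lie T) (hY : Y ∈ lie T) :
    X * Y - Y * X ∈ lie T := fun r φ hφ => kills_bracket (hX r φ hφ) (hY r φ hφ)

/-- Stable subspaces have stable complements. -/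
def HasCompl (L : Submodule k (Module.End k V)) : Prop :=
  ∀ U : Submodule k V, (∀ x ∈ L, ∀ v ∈ U, x v ∈ U) →
    ∃ U' : Submodule k V, (∀ x ∈ L, ∀ v ∈ U', x v ∈ U') ∧ IsCompl U U'

variable [CharZero k] [FiniteDimensional k V]

section ext

variable {Ω : Type} [Field Ω] [CharZero Ω] [Algebra k Ω] [IsAlgClosed Ω]

/-- The functions of the semisimple part of an element have components in the Lie algebra. -/
theorem rep_lie {T : Fam k V} {x : Module.End k V} (hx : x ∈ lie T) (J : Jb (x.baseChange Ω))
    (g : Ω →+ Ω) {β : Type} [DecidableEq β] (w : Basis β k Ω) (i : β) :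
    oc w (J.op (fun c => g c • 1)) i ∈ lie T := by
  intro m φ hφ
  have h1 : Kills (x.baseChange Ω) (bcm (Ω := Ω) (Module.finBasis k V) φ) := kills_bcm (hx m φ hφ)
  have h2 := replica J h1 g
  exact oc_kills w h2 i

/-- The elements of the radical of the trace form are nilpotent. -/
theorem nil_of_orth' {T : Fam k V} {x : Module.End k V} (hx : x ∈ orth (lie T) (lie T)) :
    IsNilpotent (x.baseChange Ω) := by
  classical
  obtain ⟨hx1, hx2⟩ := hx
  obtain ⟨J⟩ := exists_jb (x.baseChange Ω)
  refine cartan J fun f => ?_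
  have h0 : ∀ i, oc (Basis.ofVectorSpace k Ω)
      (J.op (fun c => (((Rat.castHom Ω : ℚ →+* Ω) : ℚ →+ Ω).comp f) c • 1)) i ∈ lie T :=
    fun i => rep_lie hx1 J _ _ i
  have h00 : ∀ i, LinearMap.trace k V (x * oc (Basis.ofVectorSpace k Ω)
      (J.op (fun c => (((Rat.castHom Ω : ℚ →+* Ω) : ℚ →+ Ω).comp f) c • 1)) i) = 0 :=
    fun i => hx2 _ (h0 i)
  have h1 := trace_oc (Basis.ofVectorSpace k Ω) x
    (J.op (fun c => (((Rat.castHom Ω : ℚ →+* Ω) : ℚ →+ Ω).comp f) c • 1)) h00
  exact h1

end ext

/-- The elements of the radical of the trace form are nilpotent. -/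
theorem nil_of_orth {T : Fam k V} {x : Module.End k V} (hx : x ∈ orth (lie T) (lie T)) :
    IsNilpotent x := by
  obtain ⟨n, hn⟩ := nil_of_orth' (Ω := AlgebraicClosure k) hx
  refine ⟨n, baseChange_inj (Ω := AlgebraicClosure k) ?_⟩
  rw [baseChange_pow, hn, LinearMap.baseChange_zero]

/-- An ideal of nilpotent operators vanishes. -/
theorem engel {L : Submodule k (Module.End k V)} (hL : HasCompl L)
    (I : Submodule k (Module.End k V)) (hIL : I ≤ L)
    (hbr : ∀ x ∈ L, ∀ y ∈ I, x * y - y * x ∈ I) (hnil : ∀ x ∈ I, IsNilpotent x) : I = ⊥ := by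
  let L' : LieSubalgebra k (Module.End k V) :=
    { I with lie_mem' := fun {x y} hx hy => hbr x (hIL hx) y hy }
  -- the vectors killed by the Lie algebra
  let V0 : Submodule k V :=
    { carrier := {v | ∀ x ∈ I, x v = 0}
      zero_mem' := fun x _ => map_zero _
      add_mem' := fun ha hb x hx => by rw [map_add, ha x hx, hb x hx, add_zero]
      smul_mem' := fun c a ha x hx => by rw [map_smul, ha x hx, smul_zero] }
  have hV0 : ∀ x ∈ L, ∀ v ∈ V0, x v ∈ V0 := by
    intro x hx v hv y hy
    have h1 := hv _ (hbr x hx y hy)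
    rw [LinearMap.sub_apply, Module.End.mul_apply, Module.End.mul_apply, hv y hy, map_zero,
      zero_sub, neg_eq_zero] at h1
    exact h1
  obtain ⟨M, hM, hc⟩ := hL V0 hV0
  have hM0 : M = ⊥ := by
    by_contra hne
    let N : LieSubmodule k L' V :=
      { M with
        lie_mem := fun {x v} hv => hM x.1 (hIL x.2) v hv }
    have hnilV : LieModule.IsNilpotent L' V := by
      rw [LieModule.isNilpotent_iff_forall' (R := k)]
      intro x
      exact hnil x.1 x.2
    have hnilN : LieModule.IsNilpotent L' N :=
      Function.Injective.lieModuleIsNilpotent (R := k) (f := LieHom.id)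
        (g := (N.incl : N →ₗ[k] V)) (fun x m => rfl) N.injective_incl
    have hntN : Nontrivial N := by
      obtain ⟨u, hu, hu0⟩ := Submodule.exists_mem_ne_zero_of_ne_bot hne
      exact ⟨⟨u, hu⟩, 0, fun h => hu0 (congrArg Subtype.val h)⟩
    have hnt : Nontrivial (LieModule.maxTrivSubmodule k L' N) :=
      LieModule.nontrivial_max_triv_of_isNilpotent k L' N
    obtain ⟨⟨v, hv⟩, hv0⟩ := exists_ne (0 : LieModule.maxTrivSubmodule k L' N)
    apply hv0
    rw [LieModule.mem_maxTrivSubmodule] at hv
    have h1 : (v : V) ∈ V0 := by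
      intro x hx
      exact congrArg Subtype.val (hv ⟨x, hx⟩)
    have h2 : (v : V) ∈ V0 ⊓ M := ⟨h1, v.2⟩
    rw [hc.inf_eq_bot, Submodule.mem_bot] at h2
    exact Subtype.ext (Subtype.ext h2)
  have hV0' : V0 = ⊤ := by
    have := hc.sup_eq_top
    rwa [hM0, sup_bot_eq] at this
  rw [eq_bot_iff]
  intro x hx
  rw [Submodule.mem_bot]
  refine LinearMap.ext fun v => ?_
  have h1 : v ∈ V0 := by
    rw [hV0']
    exact Submodule.mem_top
  exact h1 x hx

/-- **The trace form is nondegenerate.** -/
theorem orth_bot {T : Fam k V} (hL : HasCompl (lie T)) : orth (lie T) (lie T) = ⊥ := by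
  refine engel hL _ (fun x hx => hx.1) ?_ fun x hx => nil_of_orth hx
  rintro x hx y ⟨hy, hy'⟩
  refine ⟨lie_bracket hx hy, fun z hz => ?_⟩
  have h1 : x * y - y * x = -(y * x - x * y) := by abel
  rw [h1, neg_mul, map_neg, trace_br, hy' _ (lie_bracket hx hz), neg_zero]

omit [CharZero k] [FiniteDimensional k V] in
theorem update4 (v : Fin 4 → V) (a : V) :
    Function.update v 0 a = ![a, v 1, v 2, v 3] ∧ Function.update v 1 a = ![v 0, a, v 2, v 3] ∧
    Function.update v 2 a = ![v 0, v 1, a, v 3] ∧ Function.update v 3 a = ![v 0, v 1, v 2, a] := by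
  refine ⟨?_, ?_, ?_, ?_⟩ <;> funext i <;> fin_cases i <;> simp [Function.update]

/-- The form of degree four given by an operator on the endomorphisms. -/
def pform (ω : V →ₗ[k] V →ₗ[k] k) (P : Module.End k V →ₗ[k] Module.End k V) :
    MultilinearMap k (fun _ : Fin 4 => V) k where
  toFun v := LinearMap.trace k V (P (A1 ω (v 0) (v 1)) * A1 ω (v 2) (v 3))
  map_update_add' := by
    intro hd v i x y
    obtain rfl : hd = instDecidableEqFin 4 := Subsingleton.elim _ _
    obtain ⟨h0, h1, h2, h3⟩ := update4 v x
    obtain ⟨g0, g1, g2, g3⟩ := update4 v y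
    obtain ⟨f0, f1, f2, f3⟩ := update4 v (x + y)
    fin_cases i
    · rw [show (⟨0, by omega⟩ : Fin 4) = 0 from rfl, h0, g0, f0]
      simp [map_add, add_mul]
    · rw [show (⟨1, by omega⟩ : Fin 4) = 1 from rfl, h1, g1, f1]
      simp [map_add, add_mul]
    · rw [show (⟨2, by omega⟩ : Fin 4) = 2 from rfl, h2, g2, f2]
      simp [map_add, mul_add]
    · rw [show (⟨3, by omega⟩ : Fin 4) = 3 from rfl, h3, g3, f3]
      simp [map_add, mul_add]
  map_update_smul' := by
    intro hd v i c x
    obtain rfl : hd = instDecidableEqFin 4 := Subsingleton.elim _ _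
    obtain ⟨h0, h1, h2, h3⟩ := update4 v x
    obtain ⟨f0, f1, f2, f3⟩ := update4 v (c • x)
    fin_cases i
    · rw [show (⟨0, by omega⟩ : Fin 4) = 0 from rfl, h0, f0]
      simp
    · rw [show (⟨1, by omega⟩ : Fin 4) = 1 from rfl, h1, f1]
      simp
    · rw [show (⟨2, by omega⟩ : Fin 4) = 2 from rfl, h2, f2]
      simp
    · rw [show (⟨3, by omega⟩ : Fin 4) = 3 from rfl, h3, f3]
      simp

theorem pform_apply (ω : V →ₗ[k] V →ₗ[k] k) (P : Module.End k V →ₗ[k] Module.End k V)
    (v : Fin 4 → V) : pform ω P v = LinearMap.trace k V (P (A1 ω (v 0) (v 1)) * A1 ω (v 2) (v 3)) :=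
  rfl

/-- **The operators that annihilate the form given by the orthogonal projection normalize the Lie
algebra.** -/
theorem norm_of {ω : V →ₗ[k] V →ₗ[k] k} (hnd : ∀ u, (∀ v, ω u v = 0) → u = 0)
    {x : Module.End k V} (hxs : ∀ u w, ω (x u) w + ω u (x w) = 0)
    {L : Submodule k (Module.End k V)} {P : Module.End k V →ₗ[k] Module.End k V}
    (hP1 : ∀ y, P y ∈ L) (hPL : ∀ y ∈ L, P y = y) (hx : Kills x (pform ω P))
    {y : Module.End k V} (hy : y ∈ L) : x * y - y * x ∈ L := by
  have hAx : ∀ u v : V, A1 ω (x u) v + A1 ω u (x v) = x * A1 ω u v - A1 ω u v * x := by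
    intro u v
    refine LinearMap.ext fun w => ?_
    rw [LinearMap.add_apply, LinearMap.sub_apply, Module.End.mul_apply, Module.End.mul_apply,
      A1_apply, A1_apply, A1_apply, A1_apply, map_smul]
    have h1 := hxs u w
    have h2 : ω (x u) w = -ω u (x w) := by linear_combination h1
    rw [h2, neg_smul]
    abel
  have key : ∀ a b c d : V, LinearMap.trace k V (P (x * A1 ω a b - A1 ω a b * x) *
      A1 ω c d) + LinearMap.trace k V (P (A1 ω a b) *
      (x * A1 ω c d - A1 ω c d * x)) = 0 := by
    intro a b c d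
    have h1 := hx ![a, b, c, d]
    obtain ⟨e0, -, -, -⟩ := update4 ![a, b, c, d] (x a)
    obtain ⟨-, e1, -, -⟩ := update4 ![a, b, c, d] (x b)
    obtain ⟨-, -, e2, -⟩ := update4 ![a, b, c, d] (x c)
    obtain ⟨-, -, -, e3⟩ := update4 ![a, b, c, d] (x d)
    rw [Fin.sum_univ_four] at h1
    have f0 : (![a, b, c, d] : Fin 4 → V) 0 = a := rfl
    have f1 : (![a, b, c, d] : Fin 4 → V) 1 = b := rfl
    have f2 : (![a, b, c, d] : Fin 4 → V) 2 = c := rfl
    have f3 : (![a, b, c, d] : Fin 4 → V) 3 = d := rfl
    rw [f0, f1, f2, f3, e0, e1, e2, e3, pform_apply, pform_apply, pform_apply, pform_apply] at h1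
    rw [← hAx, ← hAx, map_add, add_mul, mul_add, map_add, map_add, ← add_assoc]
    exact h1
  have hspan := span_A1 ω hnd
  have key2 : ∀ y z : Module.End k V, LinearMap.trace k V (P (x * y - y * x) * z) +
      LinearMap.trace k V (P y * (x * z - z * x)) = 0 := by
    intro y z
    induction hspan y using Submodule.span_induction with
    | mem y hy =>
      obtain ⟨a, b, rfl⟩ := hy
      induction hspan z using Submodule.span_induction with
      | mem z hz =>
        obtain ⟨c, d, rfl⟩ := hz
        exact key a b c d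
      | zero => simp
      | add z z' _ _ hz hz' =>
        have e1 : x * (z + z') - (z + z') * x = (x * z - z * x) + (x * z' - z' * x) := by
          rw [mul_add, add_mul]
          abel
        rw [e1, mul_add, mul_add, map_add, map_add]
        linear_combination hz + hz'
      | smul c z _ hz =>
        have e1 : x * (c • z) - (c • z) * x = c • (x * z - z * x) := by
          rw [mul_smul_comm, smul_mul_assoc, smul_sub]
        rw [e1, mul_smul_comm, mul_smul_comm, map_smul, map_smul, ← smul_add, hz, smul_zero]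
    | zero => simp
    | add y y' _ _ hy hy' =>
      have e1 : x * (y + y') - (y + y') * x = (x * y - y * x) + (x * y' - y' * x) := by
        rw [mul_add, add_mul]
        abel
      rw [e1, map_add, map_add, add_mul, add_mul, map_add, map_add]
      linear_combination hy + hy'
    | smul c y _ hy =>
      have e1 : x * (c • y) - (c • y) * x = c • (x * y - y * x) := by
        rw [mul_smul_comm, smul_mul_assoc, smul_sub]
      rw [e1, map_smul, map_smul, smul_mul_assoc, smul_mul_assoc, map_smul, map_smul, ← smul_add,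
        hy, smul_zero]
  have key3 : P (x * y - y * x) = x * P y - P y * x := by
    rw [← sub_eq_zero]
    refine trace_nondeg fun z => ?_
    have h1 := key2 y z
    have h2 : LinearMap.trace k V (P y * (x * z - z * x)) =
        -LinearMap.trace k V ((x * P y - P y * x) * z) := by
      have h3 := trace_br x (P y) z
      have h4 : LinearMap.trace k V (x * (P y * z - z * P y)) =
          -LinearMap.trace k V (P y * (x * z - z * x)) := by
        rw [mul_sub, mul_sub, map_sub, map_sub]
        have e1 : LinearMap.trace k V (x * (P y * z)) = LinearMap.trace k V (P y * (z * x)) := by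
          rw [LinearMap.trace_mul_comm, mul_assoc]
        have e2 : LinearMap.trace k V (x * (z * P y)) = LinearMap.trace k V (P y * (x * z)) := by
          rw [← mul_assoc, LinearMap.trace_mul_comm]
        rw [e1, e2]
        ring
      rw [h3, h4, neg_neg]
    rw [sub_mul, map_sub, sub_eq_zero]
    rw [h2] at h1
    linear_combination h1
  rw [hPL y hy] at key3
  rw [← key3]
  exact hP1 _

/-- The decomposition of an operator that annihilates the form given by the orthogonal projection. -/
theorem split_of {ω : V →ₗ[k] V →ₗ[k] k} (hnd : ∀ u, (∀ v, ω u v = 0) → u = 0)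
    {x : Module.End k V} (hxs : ∀ u w, ω (x u) w + ω u (x w) = 0)
    {L : Submodule k (Module.End k V)} (hL : orth L L = ⊥)
    (hbr : ∀ x ∈ L, ∀ y ∈ L, x * y - y * x ∈ L)
    {P : Module.End k V →ₗ[k] Module.End k V}
    (hP1 : ∀ y, P y ∈ L) (hP2 : ∀ y, ∀ c ∈ L, LinearMap.trace k V (P y * c) =
      LinearMap.trace k V (y * c)) (hx : Kills x (pform ω P)) :
    ∀ z ∈ L, (x - P x) * z = z * (x - P x) := by
  have hPL : ∀ y ∈ L, P y = y := fun y hy => orth_unique hL (hP1 y) hy (hP2 y)
  intro z hz
  have h1 : (x - P x) * z - z * (x - P x) ∈ orth L L := by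
    refine ⟨?_, fun c hc => ?_⟩
    · have h2 := norm_of hnd hxs hP1 hPL hx hz
      have h3 := hbr _ (hP1 x) _ hz
      have h4 : (x - P x) * z - z * (x - P x) = (x * z - z * x) - (P x * z - z * P x) := by
        rw [sub_mul, mul_sub]
        abel
      rw [h4]
      exact Submodule.sub_mem _ h2 h3
    · rw [trace_br, sub_mul, map_sub, hP2 x _ (hbr _ hz _ hc), sub_self]
  rw [hL, Submodule.mem_bot, sub_eq_zero] at h1
  exact h1

end

end Pool.Agent.E8helper1.TC
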