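import Mathlib
import Pool.Agent.E8helper1.TC.Gen

/-!
# Subspaces of operators with rational components
-/

set_option autoImplicit false
set_option linter.unusedSectionVars false

namespace Pool.Agent.E8helper1.TC

open Module TensorProduct Pool.Agent.H204R3.SP Pool.Agent.H204R3.GP Pool.Agent.W522.U
  Pool.Agent.W528.Odd
open Pool.Agent.E8helper1.AP (A1 A1_apply exists_orth_proj orth_unique trace_nondeg)
open Pool.Agent.E8helper1.CT

noncomputable section

section ext

variable {k Ω : Type} [Field k] [Field Ω] [Algebra k Ω] {V : Type} [AddCommGroup V] [Module k V]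
  {κ : Type}

/-- The form `α'` on `Ω ⊗ V` extends the form `α` on `V`. -/
def Extends (α : MultilinearMap k (fun _ : κ => V) k)
    (α' : MultilinearMap Ω (fun _ : κ => Ω ⊗[k] V) Ω) : Prop :=
  ∀ v, α' (fun l => (1 : Ω) ⊗ₜ[k] v l) = algebraMap k Ω (α v)

variable [FiniteDimensional k V] [Fintype κ] [DecidableEq κ]

theorem extends_bcm (α : MultilinearMap k (fun _ : κ => V) k) :
    Extends α (bcm (Ω := Ω) (Module.finBasis k V) α) := bcm_one _ _

theorem eq_bcm {α : MultilinearMap k (fun _ : κ => V) k}
    {α' : MultilinearMap Ω (fun _ : κ => Ω ⊗[k] V) Ω} (h : Extends α α') :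
    α' = bcm (Ω := Ω) (Module.finBasis k V) α := by
  refine Basis.ext_multilinear (fun _ => (Module.finBasis k V).baseChange Ω) fun I => ?_
  simp only [Basis.baseChange_apply]
  rw [h, bcm_one]

end ext

variable {k Ω : Type} [Field k] [CharZero k] [Field Ω] [CharZero Ω] [Algebra k Ω]
  {V : Type} [AddCommGroup V] [Module k V] [FiniteDimensional k V]

/-- The basis of the large field. -/
abbrev wb (k Ω : Type) [Field k] [Field Ω] [Algebra k Ω] : Basis (Basis.ofVectorSpaceIndex k Ω) k Ω :=
  Basis.ofVectorSpace k Ω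

open Classical in
/-- The components of an operator. -/
def co (y : Module.End Ω (Ω ⊗[k] V)) (i : Basis.ofVectorSpaceIndex k Ω) : Module.End k V :=
  oc (wb k Ω) y i

open Classical in
theorem co_kills {κ : Type} [Fintype κ] [DecidableEq κ] {φ : MultilinearMap k (fun _ : κ => V) k}
    {y : Module.End Ω (Ω ⊗[k] V)} (hy : Kills y (bcm (Ω := Ω) (Module.finBasis k V) φ))
    (i : Basis.ofVectorSpaceIndex k Ω) : Kills (co y i) φ := oc_kills _ hy i

open Classical in
theorem exists_co (y : Module.End Ω (Ω ⊗[k] V)) :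
    ∃ F : Finset (Basis.ofVectorSpaceIndex k Ω), (∀ i, i ∉ F → co y i = 0) ∧
      y = ∑ i ∈ F, wb k Ω i • (co y i).baseChange Ω := exists_oc _ y

open Classical in
theorem trace_co (x : Module.End k V) (y : Module.End Ω (Ω ⊗[k] V))
    (h : ∀ i, LinearMap.trace k V (x * co y i) = 0) :
    LinearMap.trace Ω (Ω ⊗[k] V) (x.baseChange Ω * y) = 0 := trace_oc _ x y h

open Classical in
theorem co_mul_right (y : Module.End Ω (Ω ⊗[k] V)) (e : Module.End k V)
    (i : Basis.ofVectorSpaceIndex k Ω) : co (y * e.baseChange Ω) i = co y i * e := by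
  refine LinearMap.ext fun v => ?_
  rw [Module.End.mul_apply]
  unfold co
  rw [oc_apply, oc_apply, Module.End.mul_apply, LinearMap.baseChange_tmul]

open Classical in
theorem co_mul_left (y : Module.End Ω (Ω ⊗[k] V)) (e : Module.End k V)
    (i : Basis.ofVectorSpaceIndex k Ω) : co (e.baseChange Ω * y) i = e * co y i := by
  refine LinearMap.ext fun v => ?_
  rw [Module.End.mul_apply]
  unfold co
  rw [oc_apply, oc_apply, Module.End.mul_apply]
  generalize y ((1 : Ω) ⊗ₜ[k] v) = u
  induction u using TensorProduct.induction_on with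
  | zero => simp
  | tmul a b =>
    rw [LinearMap.baseChange_tmul, TensorProduct.equivFinsuppOfBasisLeft_apply_tmul,
      TensorProduct.equivFinsuppOfBasisLeft_apply_tmul, Finsupp.mapRange_apply,
      Finsupp.mapRange_apply, map_smul]
  | add a b ha hb =>
    rw [map_add, map_add, map_add, Finsupp.add_apply, Finsupp.add_apply, map_add, ha, hb]

/-- The operators with a component in common. -/
theorem co_comm {y : Module.End Ω (Ω ⊗[k] V)} {e : Module.End k V}
    (h : y * e.baseChange Ω = e.baseChange Ω * y) (i : Basis.ofVectorSpaceIndex k Ω) :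
    co y i * e = e * co y i := by
  rw [← co_mul_right, h, co_mul_left]

/-- The operator vanishes if its components do. -/
theorem eq_zero_of_co {y : Module.End Ω (Ω ⊗[k] V)} (h : ∀ i, co y i = 0) : y = 0 := by
  obtain ⟨F, -, hs⟩ := exists_co y
  rw [hs]
  exact Finset.sum_eq_zero fun i _ => by rw [h i, LinearMap.baseChange_zero, smul_zero]

/-- The rational operators in a space of operators. -/
def rat (k : Type) [Field k] {Ω : Type} [Field Ω] [Algebra k Ω] {V : Type} [AddCommGroup V]
    [Module k V] (M : Submodule Ω (Module.End Ω (Ω ⊗[k] V))) :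
    Submodule k (Module.End k V) where
  carrier := {y | y.baseChange Ω ∈ M}
  zero_mem' := by
    change (0 : Module.End k V).baseChange Ω ∈ M
    rw [LinearMap.baseChange_zero]
    exact M.zero_mem
  add_mem' := by
    intro a b ha hb
    change (a + b).baseChange Ω ∈ M
    rw [LinearMap.baseChange_add]
    exact M.add_mem ha hb
  smul_mem' := by
    intro c a ha
    change (c • a).baseChange Ω ∈ M
    rw [LinearMap.baseChange_smul, ← algebraMap_smul Ω c (a.baseChange Ω)]
    exact M.smul_mem _ ha

omit [CharZero k] [CharZero Ω] [FiniteDimensional k V] in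
theorem mem_rat {M : Submodule Ω (Module.End Ω (Ω ⊗[k] V))} {y : Module.End k V} :
    y ∈ rat k M ↔ y.baseChange Ω ∈ M := Iff.rfl

omit [CharZero Ω] in
theorem trace_sub_mul {X : Type} [AddCommGroup X] [Module Ω X] (A B c : Module.End Ω X)
    (h : LinearMap.trace Ω X ((A - B) * c) = 0) :
    LinearMap.trace Ω X (A * c) = LinearMap.trace Ω X (B * c) := by
  rw [sub_mul, map_sub] at h
  exact sub_eq_zero.1 h

variable {M : Submodule Ω (Module.End Ω (Ω ⊗[k] V))} (hM : ∀ z ∈ M, ∀ i, co z i ∈ rat k M)

include hM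

theorem rat_orth (h : orth M M = ⊥) : orth (rat k M) (rat k M) = ⊥ := by
  rw [eq_bot_iff]
  rintro y ⟨hy, hy'⟩
  rw [Submodule.mem_bot]
  have h1 : y.baseChange Ω ∈ orth M M :=
    ⟨hy, fun z hz => trace_co y z fun i => hy' _ (hM z hz i)⟩
  rw [h, Submodule.mem_bot] at h1
  refine baseChange_inj (Ω := Ω) ?_
  rw [h1, LinearMap.baseChange_zero]

/-- The orthogonal projections are compatible. -/
theorem proj_rat (h : orth M M = ⊥) {P : Module.End Ω (Ω ⊗[k] V) →ₗ[Ω] Module.End Ω (Ω ⊗[k] V)}
    (hP1 : ∀ y, P y ∈ M) (hP2 : ∀ y, ∀ c ∈ M, LinearMap.trace Ω _ (P y * c) =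
      LinearMap.trace Ω _ (y * c))
    {p : Module.End k V →ₗ[k] Module.End k V}
    (hp1 : ∀ y, p y ∈ rat k M) (hp2 : ∀ y, ∀ c ∈ rat k M, LinearMap.trace k V (p y * c) =
      LinearMap.trace k V (y * c)) (y : Module.End k V) :
    P (y.baseChange Ω) = (p y).baseChange Ω := by
  refine orth_unique h (hP1 _) (hp1 y) fun c hc => ?_
  have e := trace_co (y - p y) c fun i => by
    rw [sub_mul, map_sub, hp2 _ _ (hM c hc i), sub_self]
  let A : Module.End Ω (Ω ⊗[k] V) := y.baseChange Ω
  let B : Module.End Ω (Ω ⊗[k] V) := (p y).baseChange Ω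
  have e2 : (y - p y).baseChange Ω = A - B := LinearMap.baseChange_sub ..
  rw [e2] at e
  rw [hP2 _ c hc]
  exact trace_sub_mul A B c e

end

end Pool.Agent.E8helper1.TC
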