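import Mathlib
import Pool.Agent.E8helper1.TC.Desc

/-!
# The orthogonal projection to the Lie algebra is a de Rham-Betti class of degree four
-/

set_option autoImplicit false
set_option linter.unusedSectionVars false

namespace Pool.Agent.E8helper1.TC

open Module TensorProduct Pool.Agent.H204R3.SP Pool.Agent.H204R3.GP Pool.Agent.W522.U
  Pool.Agent.W528.Odd
open Pool.Agent.E8helper1.AP (A1 A1_apply exists_orth_proj orth_unique trace_nondeg)
open Pool.Agent.E8helper1.CT

noncomputable section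

section defs

variable {k K Ω : Type} [Field k] [Field K] [Field Ω] [Algebra k Ω] [Algebra K Ω]
  {V D : Type} [AddCommGroup V] [Module k V] [AddCommGroup D] [Module K D]

/-- A bilinear form as a form of degree two. -/
def two (B : V →ₗ[k] V →ₗ[k] k) : MultilinearMap k (fun _ : Fin 2 => V) k where
  toFun v := B (v 0) (v 1)
  map_update_add' := by
    intro hd v i x y
    obtain rfl : hd = instDecidableEqFin 2 := Subsingleton.elim _ _
    fin_cases i
    · simp
    · simp
  map_update_smul' := by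
    intro hd v i c x
    obtain rfl : hd = instDecidableEqFin 2 := Subsingleton.elim _ _
    fin_cases i
    · simp
    · simp

theorem two_apply (B : V →ₗ[k] V →ₗ[k] k) (v : Fin 2 → V) : two B v = B (v 0) (v 1) := rfl

/-- The form `α` on the Betti realisation `V` is a de Rham-Betti class of degree `m`: on the de Rham
realisation `D`, its values are `τ ^ m` times values of a form `β` with coefficients in `K`
(`τ = 2 π i`). -/
def IsDRB (τ : Ω) (c : Ω ⊗[K] D ≃ₗ[Ω] Ω ⊗[k] V) (m : ℕ) {r : ℕ}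
    (α : MultilinearMap k (fun _ : Fin r => V) k) : Prop :=
  ∃ (α' : MultilinearMap Ω (fun _ : Fin r => Ω ⊗[k] V) Ω)
    (β : MultilinearMap K (fun _ : Fin r => D) K), Extends α α' ∧
    ∀ d, α' (fun l => c ((1 : Ω) ⊗ₜ[K] d l)) = τ ^ m * algebraMap K Ω (β d)

end defs

variable {k K Ω : Type} [Field k] [CharZero k] [Field K] [CharZero K] [Field Ω] [CharZero Ω]
  [Algebra k Ω] [Algebra K Ω] {V D : Type} [AddCommGroup V] [Module k V] [FiniteDimensional k V]
  [AddCommGroup D] [Module K D] [FiniteDimensional K D]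

/-- The extended forms. -/
def extF (Ω : Type) [Field Ω] [Algebra k Ω] (T : Fam k V) : Fam Ω (Ω ⊗[k] V) := fun r =>
  {φ' | ∃ φ ∈ T r, φ' = bcm (Ω := Ω) (Module.finBasis k V) φ}

theorem co_mem_lie {T : Fam k V} {z : Module.End Ω (Ω ⊗[k] V)} (hz : z ∈ lie (extF Ω T))
    (i : Basis.ofVectorSpaceIndex k Ω) : co z i ∈ lie T :=
  fun r φ hφ => co_kills (hz r _ ⟨φ, hφ, rfl⟩) i

theorem baseChange_mem {T : Fam k V} {x : Module.End k V} (hx : x ∈ lie T) :
    x.baseChange Ω ∈ lie (extF Ω T) := by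
  rintro r _ ⟨φ, hφ, rfl⟩
  exact kills_bcm (hx r φ hφ)

theorem mem_of_baseChange {T : Fam k V} {x : Module.End k V}
    (hx : x.baseChange Ω ∈ lie (extF Ω T)) : x ∈ lie T := by
  intro r φ hφ v
  have h1 := hx r _ ⟨φ, hφ, rfl⟩ (fun l => (1 : Ω) ⊗ₜ[k] v l)
  simp only [LinearMap.baseChange_tmul] at h1
  rw [Finset.sum_congr rfl fun l _ => bcm_ext φ x l v, ← map_sum] at h1
  exact (map_eq_zero (algebraMap k Ω)).1 h1

theorem rat_eq (T : Fam k V) : rat k (lie (extF Ω T)) = lie T := by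
  ext x
  exact ⟨mem_of_baseChange, baseChange_mem⟩

theorem co_mem_rat {T : Fam k V} {z : Module.End Ω (Ω ⊗[k] V)} (hz : z ∈ lie (extF Ω T))
    (i : Basis.ofVectorSpaceIndex k Ω) : co z i ∈ rat k (lie (extF Ω T)) := by
  rw [rat_eq]
  exact co_mem_lie hz i

theorem big_orth {T : Fam k V} (h : orth (lie T) (lie T) = ⊥) :
    orth (lie (extF Ω T)) (lie (extF Ω T)) = ⊥ := by
  classical
  rw [eq_bot_iff]
  rintro z ⟨hz, hz'⟩
  rw [Submodule.mem_bot]
  refine eq_zero_of_co fun i => ?_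
  have h1 : co z i ∈ orth (lie T) (lie T) := by
    refine ⟨co_mem_lie hz i, fun x hx => ?_⟩
    obtain ⟨F, hF, hs⟩ := exists_co z
    by_cases hi : i ∈ F
    · refine coef_zero (wb k Ω) F (fun i => LinearMap.trace k V (co z i * x)) ?_ i hi
      have h2 := hz' _ (baseChange_mem (Ω := Ω) hx)
      rw [← h2]
      conv_rhs => rw [hs]
      rw [Finset.sum_mul, map_sum]
      refine Finset.sum_congr rfl fun j _ => ?_
      rw [smul_mul_assoc, map_smul, ← LinearMap.baseChange_mul, LinearMap.trace_baseChange,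
        smul_eq_mul]
    · rw [hF i hi, zero_mul, map_zero]
  rw [h, Submodule.mem_bot] at h1
  exact h1

variable {τ : Ω} (hτ : τ ≠ 0) {c : Ω ⊗[K] D ≃ₗ[Ω] Ω ⊗[k] V} {T : Fam k V}

theorem kills_conj {κ : Type} [Fintype κ] [DecidableEq κ] {X Y : Type} [AddCommGroup X] [Module Ω X]
    [AddCommGroup Y] [Module Ω Y] (c : X ≃ₗ[Ω] Y) (z : Module.End Ω X)
    (φ : MultilinearMap Ω (fun _ : κ => Y) Ω) :
    Kills (c.conj z) φ ↔ Kills z (φ.compLinearMap fun _ => c.toLinearMap) := by
  have key : ∀ v : κ → X, ∀ l, (φ.compLinearMap fun _ => c.toLinearMap)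
      (Function.update v l (z (v l))) = φ (Function.update (fun l => c (v l)) l
        (c.conj z (c (v l)))) := by
    intro v l
    rw [MultilinearMap.compLinearMap_apply]
    congr 1
    funext l'
    by_cases h : l' = l
    · subst h
      rw [Function.update_self, Function.update_self, LinearEquiv.conj_apply]
      simp
    · rw [Function.update_of_ne h, Function.update_of_ne h]
      rfl
  constructor
  · intro h v
    rw [Finset.sum_congr rfl fun l _ => key v l]
    exact h fun l => c (v l)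
  · intro h v
    have h1 := h fun l => c.symm (v l)
    rw [Finset.sum_congr rfl fun l _ => key (fun l => c.symm (v l)) l] at h1
    simpa using h1

/-- The operators on the de Rham side. -/
def drL (c : Ω ⊗[K] D ≃ₗ[Ω] Ω ⊗[k] V) (T : Fam k V) : Submodule Ω (Module.End Ω (Ω ⊗[K] D)) :=
  (lie (extF Ω T)).comap (c.conj : Module.End Ω (Ω ⊗[K] D) →ₗ[Ω] Module.End Ω (Ω ⊗[k] V))

theorem mem_drL {z : Module.End Ω (Ω ⊗[K] D)} : z ∈ drL c T ↔ c.conj z ∈ lie (extF Ω T) := Iff.rfl

include hτ in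
theorem drL_co (hT : ∀ r, ∀ φ ∈ T r, ∃ m, IsDRB τ c m φ) {z : Module.End Ω (Ω ⊗[K] D)}
    (hz : z ∈ drL c T) (i : Basis.ofVectorSpaceIndex K Ω) : co z i ∈ rat K (drL c T) := by
  rw [mem_rat, mem_drL]
  rintro r _ ⟨φ, hφ, rfl⟩
  obtain ⟨m, α', β, h1, h2⟩ := hT r φ hφ
  have h3 := mem_drL.1 hz r _ ⟨φ, hφ, rfl⟩
  rw [kills_conj] at h3 ⊢
  have h4 : (bcm (Ω := Ω) (Module.finBasis k V) φ).compLinearMap (fun _ => c.toLinearMap) =
      τ ^ m • bcm (Ω := Ω) (Module.finBasis K D) β := by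
    rw [← eq_bcm h1]
    refine Basis.ext_multilinear (fun _ => (Module.finBasis K D).baseChange Ω) fun I => ?_
    simp only [Basis.baseChange_apply]
    rw [MultilinearMap.compLinearMap_apply, smul_apply, bcm_one, smul_eq_mul]
    exact h2 _
  rw [h4] at h3 ⊢
  have h5 : ∀ z' : Module.End Ω (Ω ⊗[K] D), Kills z' (τ ^ m • bcm (Ω := Ω) (Module.finBasis K D) β) ↔
      Kills z' (bcm (Ω := Ω) (Module.finBasis K D) β) := by
    intro z'
    refine forall_congr' fun v => ?_
    simp only [smul_apply]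
    rw [← Finset.smul_sum, smul_eq_zero]
    exact or_iff_right (pow_ne_zero _ hτ)
  rw [h5] at h3 ⊢
  exact kills_bcm (co_kills h3 i)

theorem trace_conj2 {X Y : Type} [AddCommGroup X] [Module Ω X] [AddCommGroup Y] [Module Ω Y]
    (c : X ≃ₗ[Ω] Y) (a b : Module.End Ω X) :
    LinearMap.trace Ω Y (c.conj a * c.conj b) = LinearMap.trace Ω X (a * b) := by
  rw [← LinearMap.trace_conj' (a * b) c]
  congr 1
  exact (LinearEquiv.conj_comp c b a).symm

theorem drL_orth (h : orth (lie T) (lie T) = ⊥) : orth (drL c T) (drL c T) = ⊥ := by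
  rw [eq_bot_iff]
  rintro z ⟨hz, hz'⟩
  rw [Submodule.mem_bot]
  have h1 : c.conj z ∈ orth (lie (extF Ω T)) (lie (extF Ω T)) := by
    refine ⟨hz, fun y hy => ?_⟩
    have h2 : c.conj.symm y ∈ drL c T := by
      rw [mem_drL, LinearEquiv.apply_symm_apply]
      exact hy
    have h3 := hz' _ h2
    rw [← trace_conj2 c, LinearEquiv.apply_symm_apply] at h3
    exact h3
  rw [big_orth h, Submodule.mem_bot] at h1
  exact (map_eq_zero_iff _ c.conj.injective).1 h1

theorem extends_unique {r : ℕ} {α : MultilinearMap k (fun _ : Fin r => V) k}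
    {α' α'' : MultilinearMap Ω (fun _ : Fin r => Ω ⊗[k] V) Ω} (h : Extends α α')
    (h' : Extends α α'') : α' = α'' := (eq_bcm h).trans (eq_bcm h').symm

theorem A1_one (ψ : V →ₗ[k] V →ₗ[k] k) (u v : V) :
    A1 (LinearMap.BilinForm.baseChange Ω ψ) ((1 : Ω) ⊗ₜ[k] u) ((1 : Ω) ⊗ₜ[k] v) =
      (A1 ψ u v).baseChange Ω := by
  refine ((Module.finBasis k V).baseChange Ω).ext fun i => ?_
  rw [Basis.baseChange_apply, A1_apply, LinearMap.baseChange_tmul, A1_apply,
    LinearMap.BilinForm.baseChange_tmul]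
  simp [TensorProduct.smul_tmul']

theorem up0 {X : Type} (a b x : X) : Function.update ![a, b] 0 x = ![x, b] := by
  funext i
  fin_cases i <;> simp

theorem up1 {X : Type} (a b x : X) : Function.update ![a, b] 1 x = ![a, x] := by
  funext i
  fin_cases i <;> simp

include hτ in
/-- **The orthogonal projection to the Lie algebra is a de Rham-Betti class.** -/
theorem pform_drb (hT : ∀ r, ∀ φ ∈ T r, ∃ m, IsDRB τ c m φ) (h : orth (lie T) (lie T) = ⊥)
    {ψ : V →ₗ[k] V →ₗ[k] k} {w : ℕ} (hψ : IsDRB τ c w (two ψ))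
    {P : Module.End k V →ₗ[k] Module.End k V} (hP1 : ∀ y, P y ∈ lie T)
    (hP2 : ∀ y, ∀ c ∈ lie T, LinearMap.trace k V (P y * c) = LinearMap.trace k V (y * c)) :
    IsDRB τ c (2 * w) (pform ψ P) := by
  obtain ⟨α', β, h1, h2⟩ := hψ
  -- the projections
  obtain ⟨PΩ, hPΩ1, hPΩ2⟩ := exists_orth_proj _ (big_orth (Ω := Ω) h)
  obtain ⟨PD, hPD1, hPD2⟩ := exists_orth_proj _ (rat_orth (k := K)
    (fun z hz i => drL_co hτ hT hz i) (drL_orth (c := c) h))
  have e1 : ∀ y, PΩ (y.baseChange Ω) = (P y).baseChange Ω := by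
    refine proj_rat (fun z hz i => co_mem_rat hz i) (big_orth h) hPΩ1 hPΩ2 ?_ ?_
    · intro y
      rw [rat_eq]
      exact hP1 y
    · intro y
      rw [rat_eq]
      exact hP2 y
  have e2 : ∀ y : Module.End K D, PΩ (c.conj (y.baseChange Ω)) = c.conj ((PD y).baseChange Ω) := by
    intro y
    let P' : Module.End Ω (Ω ⊗[K] D) →ₗ[Ω] Module.End Ω (Ω ⊗[K] D) :=
      (c.conj.symm.toLinearMap.comp PΩ).comp c.conj.toLinearMap
    have hP' : ∀ z, c.conj (P' z) = PΩ (c.conj z) := fun z => c.conj.apply_symm_apply _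
    have h3 := proj_rat (k := K) (fun z hz i => drL_co hτ hT hz i) (drL_orth (c := c) h)
      (P := P') ?_ ?_ hPD1 hPD2 y
    · rw [← hP', h3]
    · intro z
      rw [mem_drL, hP']
      exact hPΩ1 _
    · intro z a ha
      rw [← trace_conj2 c, hP']
      exact (hPΩ2 _ _ ha).trans (trace_conj2 c z a)
  -- the bilinear form
  let ψΩ : Ω ⊗[k] V →ₗ[Ω] Ω ⊗[k] V →ₗ[Ω] Ω := LinearMap.BilinForm.baseChange Ω ψ
  have e3 : two ψΩ = α' := by
    refine extends_unique (α := two ψ) (fun v => ?_) h1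
    rw [two_apply, two_apply]
    change LinearMap.BilinForm.baseChange Ω ψ _ _ = _
    rw [LinearMap.BilinForm.baseChange_tmul]
    simp [Algebra.smul_def]
  let b : D →ₗ[K] D →ₗ[K] K := LinearMap.mk₂ K (fun d e => β ![d, e])
    (fun d d' e => by
      have := β.map_update_add ![d, e] 0 d d'
      rwa [up0, up0, up0] at this)
    (fun a d e => by
      have := β.map_update_smul ![d, e] 0 a d
      rwa [up0, up0] at this)
    (fun d e e' => by
      have := β.map_update_add ![d, e] 1 e e'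
      rwa [up1, up1, up1] at this)
    (fun a d e => by
      have := β.map_update_smul ![d, e] 1 a e
      rwa [up1, up1] at this)
  have hb : ∀ d e, b d e = β ![d, e] := fun d e => rfl
  have e4 : ∀ d e, ψΩ (c ((1 : Ω) ⊗ₜ[K] d)) (c ((1 : Ω) ⊗ₜ[K] e)) = τ ^ w * algebraMap K Ω (b d e) := by
    intro d e
    have h3 := h2 ![d, e]
    rw [← e3, two_apply] at h3
    rw [hb]
    exact h3
  have e5 : ∀ d e, A1 ψΩ (c ((1 : Ω) ⊗ₜ[K] d)) (c ((1 : Ω) ⊗ₜ[K] e)) =
      τ ^ w • c.conj ((A1 b d e).baseChange Ω) := by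
    intro d e
    refine (((Module.finBasis K D).baseChange Ω).map c).ext fun i => ?_
    rw [Basis.map_apply, Basis.baseChange_apply, A1_apply, e4, LinearMap.smul_apply,
      LinearEquiv.conj_apply]
    simp only [LinearMap.comp_apply, LinearEquiv.coe_coe, LinearEquiv.symm_apply_apply,
      LinearMap.baseChange_tmul]
    rw [A1_apply, TensorProduct.tmul_smul, mul_smul]
    congr 1
    rw [← algebraMap_smul Ω (b d _), map_smul]
  refine ⟨pform ψΩ PΩ, pform b PD, fun v => ?_, fun d => ?_⟩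
  · rw [pform_apply, pform_apply]
    change LinearMap.trace Ω _ (PΩ (A1 (LinearMap.BilinForm.baseChange Ω ψ) _ _) *
      A1 (LinearMap.BilinForm.baseChange Ω ψ) _ _) = _
    rw [A1_one, A1_one, e1, ← LinearMap.baseChange_mul, LinearMap.trace_baseChange]
  · rw [pform_apply, pform_apply, e5, e5, map_smul, e2, smul_mul_assoc, mul_smul_comm, map_smul,
      map_smul, trace_conj2, ← LinearMap.baseChange_mul, LinearMap.trace_baseChange, smul_eq_mul,
      smul_eq_mul, ← mul_assoc, ← pow_add, two_mul]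

end

end Pool.Agent.E8helper1.TC
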