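import Mathlib
import Pool.Agent.E8helper1.TC.Drb
import Pool.Agent.H23R2.Der

/-!
# Derivations of the field of complex numbers
-/

set_option autoImplicit false
set_option linter.unusedSectionVars false

namespace Pool.Agent.E8helper1.TC

open Module TensorProduct Pool.Agent.H204R3.SP Pool.Agent.H204R3.GP Pool.Agent.W522.U
  Pool.Agent.W528.Odd
open Pool.Agent.E8helper1.CT

noncomputable section

/-- A derivation is linear over the rational numbers. -/
def derQ (D : Derivation ℤ ℂ ℂ) : Derivation ℚ ℂ ℂ :=
  Derivation.mk' (D.toLinearMap.toAddMonoidHom.toRatLinearMap) fun a b => by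
    exact D.leibniz a b

theorem derQ_apply (D : Derivation ℤ ℂ ℂ) (z : ℂ) : derQ D z = D z := rfl

/-- A derivation vanishes on algebraic numbers. -/
theorem der_algebraic (δ : Derivation ℚ ℂ ℂ) {z : ℂ} (hz : IsAlgebraic ℚ z) : δ z = 0 := by
  have h1 := δ.map_aeval (minpoly ℚ z) z
  rw [minpoly.aeval, map_zero] at h1
  have hsep : (minpoly ℚ z).Separable := (minpoly.irreducible hz.isIntegral).separable
  have h2 : Polynomial.aeval z (minpoly ℚ z).derivative ≠ 0 :=
    hsep.aeval_derivative_ne_zero (minpoly.aeval ℚ z)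
  exact (smul_eq_zero.1 h1.symm).resolve_left h2

/-- The product rule. -/
theorem der_prod (δ : Derivation ℚ ℂ ℂ) {κ : Type} [DecidableEq κ] (s : Finset κ) (f : κ → ℂ) :
    δ (∏ j ∈ s, f j) = ∑ l ∈ s, ∏ j ∈ s, Function.update f l (δ (f l)) j := by
  induction s using Finset.induction_on with
  | empty => simp
  | insert a s ha ih =>
    rw [Finset.prod_insert ha, Derivation.leibniz, ih, Finset.sum_insert ha, Finset.prod_insert ha,
      Function.update_self, smul_eq_mul, smul_eq_mul, Finset.mul_sum, add_comm]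
    congr 1
    · rw [mul_comm]
      congr 1
      refine Finset.prod_congr rfl fun j hj => ?_
      rw [Function.update_of_ne (fun h : j = a => ha (by rwa [h] at hj))]
    · refine Finset.sum_congr rfl fun l hl => ?_
      rw [Finset.prod_insert ha, Function.update_of_ne (fun h : a = l => ha (by rwa [← h] at hl))]

section nabla

variable {k : Type} [Field k] [Algebra k ℂ] {V : Type} [AddCommGroup V] [Module k V]
  {δ : Derivation ℚ ℂ ℂ} (hδ : ∀ a : k, δ (algebraMap k ℂ a) = 0)

/-- A derivation which vanishes on the field `k` is `k`-linear. -/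
def derL (hδ : ∀ a : k, δ (algebraMap k ℂ a) = 0) : ℂ →ₗ[k] ℂ where
  toFun := δ
  map_add' := map_add δ
  map_smul' := by
    intro a z
    rw [Algebra.smul_def, Derivation.leibniz, hδ, smul_zero, add_zero, RingHom.id_apply,
      smul_eq_mul, Algebra.smul_def]

/-- The action of a derivation on the extension of scalars. -/
def nab (V : Type) [AddCommGroup V] [Module k V] (hδ : ∀ a : k, δ (algebraMap k ℂ a) = 0) :
    ℂ ⊗[k] V →ₗ[k] ℂ ⊗[k] V := (derL hδ).rTensor V

theorem nab_tmul (a : ℂ) (v : V) : nab V hδ (a ⊗ₜ[k] v) = δ a ⊗ₜ[k] v := rfl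

theorem nab_one (v : V) : nab V hδ ((1 : ℂ) ⊗ₜ[k] v) = 0 := by
  rw [nab_tmul, δ.map_one_eq_zero, TensorProduct.zero_tmul]

theorem nab_smul (a : ℂ) (z : ℂ ⊗[k] V) : nab V hδ (a • z) = δ a • z + a • nab V hδ z := by
  induction z using TensorProduct.induction_on with
  | zero => simp
  | tmul b v =>
    rw [TensorProduct.smul_tmul', nab_tmul, nab_tmul, smul_eq_mul, Derivation.leibniz,
      TensorProduct.smul_tmul', TensorProduct.smul_tmul', ← TensorProduct.add_tmul, smul_eq_mul,
      smul_eq_mul, smul_eq_mul, add_comm, mul_comm b]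
  | add x y hx hy =>
    rw [smul_add, map_add, hx, hy, map_add, smul_add, smul_add]
    abel

theorem nab_baseChange (e : Module.End k V) (z : ℂ ⊗[k] V) :
    nab V hδ (e.baseChange ℂ z) = e.baseChange ℂ (nab V hδ z) := by
  induction z using TensorProduct.induction_on with
  | zero => simp
  | tmul b v => rw [LinearMap.baseChange_tmul, nab_tmul, nab_tmul, LinearMap.baseChange_tmul]
  | add x y hx hy => rw [map_add, map_add, hx, hy, map_add, map_add]

theorem coord_nab {ν : Type} (b : Basis ν k V) (i : ν) (z : ℂ ⊗[k] V) :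
    (b.baseChange ℂ).coord i (nab V hδ z) = δ ((b.baseChange ℂ).coord i z) := by
  induction z using TensorProduct.induction_on with
  | zero => simp
  | tmul a v =>
    rw [nab_tmul, Basis.coord_apply, Basis.coord_apply, Basis.baseChange_repr_tmul,
      Basis.baseChange_repr_tmul, Algebra.smul_def, Algebra.smul_def, Derivation.leibniz, hδ,
      smul_zero, add_zero, smul_eq_mul]
  | add x y hx hy => rw [map_add, map_add, hx, hy, map_add, map_add]

/-- The derivative of the value of a form. -/
theorem der_bcm {κ : Type} [Fintype κ] [DecidableEq κ] [FiniteDimensional k V]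
    (α : MultilinearMap k (fun _ : κ => V) k) (z : κ → ℂ ⊗[k] V) :
    δ (bcm (Ω := ℂ) (Module.finBasis k V) α z) =
      ∑ l, bcm (Ω := ℂ) (Module.finBasis k V) α (Function.update z l (nab V hδ (z l))) := by
  have h1 : ∀ z : κ → ℂ ⊗[k] V, bcm (Ω := ℂ) (Module.finBasis k V) α z =
      ∑ I : κ → Fin (finrank k V), algebraMap k ℂ (α fun l => Module.finBasis k V (I l)) *
        ∏ l, ((Module.finBasis k V).baseChange ℂ).coord (I l) (z l) := by
    intro z
    unfold bcm
    rw [MultilinearMap.sum_apply]
    refine Finset.sum_congr rfl fun I _ => ?_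
    rw [smul_apply, smul_eq_mul, MultilinearMap.compLinearMap_apply,
      MultilinearMap.mkPiAlgebra_apply]
  rw [h1, map_sum]
  simp only [h1]
  rw [Finset.sum_comm]
  refine Finset.sum_congr rfl fun I _ => ?_
  rw [Derivation.leibniz, hδ, smul_zero, add_zero, der_prod, smul_eq_mul, Finset.mul_sum]
  refine Finset.sum_congr rfl fun l _ => ?_
  congr 1
  refine Finset.prod_congr rfl fun j _ => ?_
  by_cases hj : j = l
  · subst hj
    rw [Function.update_self, Function.update_self, coord_nab]
  · rw [Function.update_of_ne hj, Function.update_of_ne hj]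

/-- An element on which all derivations vanish is rational. -/
theorem rat_of_nab [FiniteDimensional k V] {z : ℂ ⊗[k] V}
    (hk : ∀ a : ℂ, (∀ (δ : Derivation ℚ ℂ ℂ), (∀ a : k, δ (algebraMap k ℂ a) = 0) → δ a = 0) →
      a ∈ Set.range (algebraMap k ℂ))
    (hz : ∀ (δ : Derivation ℚ ℂ ℂ) (hδ : ∀ a : k, δ (algebraMap k ℂ a) = 0), nab V hδ z = 0) :
    ∃ v : V, z = (1 : ℂ) ⊗ₜ[k] v := by
  let b := Module.finBasis k V
  have h1 : ∀ i, ∃ a : k, algebraMap k ℂ a = (b.baseChange ℂ).coord i z := by
    intro i
    refine hk _ fun δ hδ => ?_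
    rw [← coord_nab hδ, hz δ hδ, map_zero]
  choose a ha using h1
  refine ⟨∑ i, a i • b i, ?_⟩
  rw [TensorProduct.tmul_sum]
  conv_lhs => rw [← (b.baseChange ℂ).sum_repr z]
  refine Finset.sum_congr rfl fun i _ => ?_
  have h2 := ha i
  rw [Basis.coord_apply] at h2
  rw [← h2, Basis.baseChange_apply, TensorProduct.tmul_smul, algebraMap_smul]

end nabla

end

end Pool.Agent.E8helper1.TC
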