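import Mathlib
import Pool.Agent.E8helper1.TC.Der

/-!
# The stable subspaces and the commutant of the Lie algebra of the de Rham-Betti group

The derivations of the field of complex numbers act on the matrix of periods by elements of the Lie
algebra. It follows that the subspaces stable under the Lie algebra and the operators which commute
with it are those of the de Rham-Betti object.
-/

set_option autoImplicit false
set_option linter.unusedSectionVars false

namespace Pool.Agent.E8helper1.TC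

open Module TensorProduct Pool.Agent.H204R3.SP Pool.Agent.H204R3.GP Pool.Agent.W522.U
  Pool.Agent.W528.Odd
open Pool.Agent.E8helper1.CT

noncomputable section

section defs

variable {K : Type} [Field K] [Algebra K ℂ] {V D : Type} [AddCommGroup V] [Module ℚ V]
  [AddCommGroup D] [Module K D]

/-- The operator `e` on the Betti realisation is an endomorphism of the de Rham-Betti object
`(D, V, c)`. -/
def IsDRBEnd (c : ℂ ⊗[K] D ≃ₗ[ℂ] ℂ ⊗[ℚ] V) (e : Module.End ℚ V) : Prop :=
  ∃ e' : Module.End K D, ∀ d, e.baseChange ℂ (c ((1 : ℂ) ⊗ₜ[K] d)) = c ((1 : ℂ) ⊗ₜ[K] e' d)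

/-- The subspace `U` of the Betti realisation is the Betti realisation of a subobject of the de
Rham-Betti object `(D, V, c)`. -/
def IsSubobject (c : ℂ ⊗[K] D ≃ₗ[ℂ] ℂ ⊗[ℚ] V) (U : Submodule ℚ V) : Prop :=
  ∃ U' : Submodule K D, (U'.baseChange ℂ).map c.toLinearMap = U.baseChange ℂ

end defs

theorem hQ (δ : Derivation ℚ ℂ ℂ) : ∀ a : ℚ, δ (algebraMap ℚ ℂ a) = 0 :=
  fun a => δ.map_algebraMap a

section const

variable (K : Type) [Field K] [CharZero K] [Algebra K ℂ]

theorem der_zero [Algebra.IsAlgebraic ℚ K] (δ : Derivation ℚ ℂ ℂ) (a : K) :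
    δ (algebraMap K ℂ a) = 0 := by
  refine der_algebraic δ ?_
  have h1 := Algebra.IsAlgebraic.isAlgebraic (R := ℚ) a
  exact h1.algebraMap

theorem mem_of_der [IsAlgClosed K] {a : ℂ} (h : ∀ δ : Derivation ℚ ℂ ℂ, δ a = 0) :
    a ∈ Set.range (algebraMap K ℂ) := by
  have h1 : IsAlgebraic ℚ a := by
    by_contra hcon
    obtain ⟨D, hD⟩ := Pool.Agent.H23R2.exists_derivation a hcon
    exact hD (h (derQ D))
  have h2 : IsIntegral K a := h1.isIntegral.tower_top
  have h3 := minpoly.irreducible h2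
  exact minpoly.mem_range_of_degree_eq_one K a (IsAlgClosed.degree_eq_one_of_irreducible K h3)

end const

variable {K : Type} [Field K] [CharZero K] [Algebra K ℂ] {V D : Type} [AddCommGroup V] [Module ℚ V]
  [FiniteDimensional ℚ V] [AddCommGroup D] [Module K D] [FiniteDimensional K D]
  {c : ℂ ⊗[K] D ≃ₗ[ℂ] ℂ ⊗[ℚ] V}

section nx

variable {δ : Derivation ℚ ℂ ℂ} (hK : ∀ a : K, δ (algebraMap K ℂ a) = 0)

/-- The logarithmic derivative of the comparison isomorphism. -/
def ldc (c : ℂ ⊗[K] D ≃ₗ[ℂ] ℂ ⊗[ℚ] V) (hK : ∀ a : K, δ (algebraMap K ℂ a) = 0) :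
    Module.End ℂ (ℂ ⊗[ℚ] V) where
  toFun z := nab V (hQ δ) z - c (nab D hK (c.symm z))
  map_add' := by
    intro x y
    simp only [map_add]
    abel
  map_smul' := by
    intro a x
    have h1 : c.symm (a • x) = a • c.symm x := map_smul c.symm a x
    have h2 : c (δ a • c.symm x) = δ a • x := by
      rw [map_smul c, LinearEquiv.apply_symm_apply]
    have h3 : c (a • nab D hK (c.symm x)) = a • c (nab D hK (c.symm x)) := map_smul c _ _
    rw [h1, nab_smul, nab_smul, map_add c, h2, h3, RingHom.id_apply, smul_sub]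
    abel

theorem ldc_apply (z : ℂ ⊗[ℚ] V) : ldc c hK z = nab V (hQ δ) z - c (nab D hK (c.symm z)) := rfl

theorem ldc_one (d : D) : ldc c hK (c ((1 : ℂ) ⊗ₜ[K] d)) = nab V (hQ δ) (c ((1 : ℂ) ⊗ₜ[K] d)) := by
  rw [ldc_apply, LinearEquiv.symm_apply_apply, nab_one, map_zero, sub_zero]

/-- **The logarithmic derivative of the comparison isomorphism belongs to the Lie algebra**, up to a
scalar which comes from the Tate twist. -/
theorem ldc_mem {T : Fam ℚ V} {w : ℕ} {τ : ℂ} (hτ : τ ≠ 0)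
    (hT : ∀ r, ∀ φ ∈ T r, ∃ m, r * w = 2 * m ∧ IsDRB τ c m φ) :
    ldc c hK - ((w / 2 : ℂ) * (δ τ / τ)) • (1 : Module.End ℂ (ℂ ⊗[ℚ] V)) ∈ lie (extF ℂ T) := by
  rintro r _ ⟨φ, hφ, rfl⟩
  obtain ⟨m, hm, α', β, h1, h2⟩ := hT r φ hφ
  rw [eq_bcm h1] at h2
  set A := bcm (Ω := ℂ) (Module.finBasis ℚ V) φ with hA
  let B : Basis (Fin (finrank K D)) ℂ (ℂ ⊗[ℚ] V) := ((Module.finBasis K D).baseChange ℂ).map c
  have hB : ∀ i, B i = c ((1 : ℂ) ⊗ₜ[K] Module.finBasis K D i) := by
    intro i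
    rw [Basis.map_apply, Basis.baseChange_apply]
  refine kills_of_basis B _ _ fun I => ?_
  set b : Fin r → D := fun l => Module.finBasis K D (I l) with hb
  have hv : (fun l => B (I l)) = fun l => c ((1 : ℂ) ⊗ₜ[K] b l) := funext fun l => hB _
  have h3 : ∀ l, A (Function.update (fun l => B (I l)) l
      ((ldc c hK - ((w / 2 : ℂ) * (δ τ / τ)) • (1 : Module.End ℂ (ℂ ⊗[ℚ] V))) (B (I l)))) =
      A (Function.update (fun l => c ((1 : ℂ) ⊗ₜ[K] b l)) l
        (nab V (hQ δ) (c ((1 : ℂ) ⊗ₜ[K] b l)))) -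
        ((w / 2 : ℂ) * (δ τ / τ)) * A (fun l => c ((1 : ℂ) ⊗ₜ[K] b l)) := by
    intro l
    rw [hv, LinearMap.sub_apply, LinearMap.smul_apply, Module.End.one_apply,
      MultilinearMap.map_update_sub, MultilinearMap.map_update_smul, smul_eq_mul, hB, ldc_one]
    congr 2
    exact congrArg A (Function.update_eq_self l (fun l => c ((1 : ℂ) ⊗ₜ[K] b l)))
  rw [Finset.sum_congr rfl fun l _ => h3 l, Finset.sum_sub_distrib, Finset.sum_const,
    Finset.card_univ, Fintype.card_fin, ← der_bcm (hQ δ) φ (fun l => c ((1 : ℂ) ⊗ₜ[K] b l)), ← hA,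
    h2, Derivation.leibniz, hK, smul_zero, zero_add, Derivation.leibniz_pow, smul_eq_mul,
    smul_eq_mul, nsmul_eq_mul, nsmul_eq_mul]
  have h4 : (r : ℂ) * w = 2 * m := by exact_mod_cast hm
  rcases Nat.eq_zero_or_pos m with h0 | h0
  · subst h0
    simp only [Nat.cast_zero, mul_zero] at h4
    have h5 : ∀ X : ℂ, (r : ℂ) * ((w / 2 : ℂ) * (δ τ / τ) * X) =
        ((r : ℂ) * w) * ((1 / 2 : ℂ) * (δ τ / τ) * X) := fun X => by ring
    rw [h5, h4]
    simp
  · obtain ⟨n, rfl⟩ : ∃ n, m = n + 1 := ⟨m - 1, by omega⟩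
    have h5 : ∀ X : ℂ, (r : ℂ) * ((w / 2 : ℂ) * (δ τ / τ) * (τ ^ (n + 1) * X)) =
        ((r : ℂ) * w) / 2 * (δ τ * τ ^ n * X) := fun X => by
      field_simp
      ring
    rw [h5, h4, Nat.add_sub_cancel]
    push_cast
    ring

/-- The scalar plus the operator in the Lie algebra. -/
theorem ldc_split {T : Fam ℚ V} {w : ℕ} {τ : ℂ} (hτ : τ ≠ 0)
    (hT : ∀ r, ∀ φ ∈ T r, ∃ m, r * w = 2 * m ∧ IsDRB τ c m φ) :
    ∃ (s : ℂ) (z : Module.End ℂ (ℂ ⊗[ℚ] V)), z ∈ lie (extF ℂ T) ∧
      ∀ v, ldc c hK v = s • v + z v := by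
  refine ⟨(w / 2 : ℂ) * (δ τ / τ), _, ldc_mem hK hτ hT, fun v => ?_⟩
  rw [LinearMap.sub_apply, LinearMap.smul_apply, Module.End.one_apply, add_sub_cancel]

end nx

/-- Operators which commute with the Lie algebra. -/
theorem comm_ext {T : Fam ℚ V} {e : Module.End ℚ V} (he : ∀ x ∈ lie T, e * x = x * e)
    {z : Module.End ℂ (ℂ ⊗[ℚ] V)} (hz : z ∈ lie (extF ℂ T)) (v : ℂ ⊗[ℚ] V) :
    e.baseChange ℂ (z v) = z (e.baseChange ℂ v) := by
  obtain ⟨F, -, hs⟩ := exists_co z
  rw [hs, LinearMap.sum_apply, LinearMap.sum_apply, map_sum]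
  refine Finset.sum_congr rfl fun i _ => ?_
  rw [LinearMap.smul_apply, LinearMap.smul_apply, map_smul]
  congr 1
  have h1 := he _ (co_mem_lie hz i)
  rw [← Module.End.mul_apply, ← Module.End.mul_apply, ← LinearMap.baseChange_mul,
    ← LinearMap.baseChange_mul, h1]

/-- Subspaces stable under the Lie algebra. -/
theorem stable_ext {T : Fam ℚ V} {U : Submodule ℚ V} (hU : ∀ x ∈ lie T, ∀ v ∈ U, x v ∈ U)
    {z : Module.End ℂ (ℂ ⊗[ℚ] V)} (hz : z ∈ lie (extF ℂ T)) {v : ℂ ⊗[ℚ] V}
    (hv : v ∈ U.baseChange ℂ) : z v ∈ U.baseChange ℂ := by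
  obtain ⟨F, -, hs⟩ := exists_co z
  rw [hs, LinearMap.sum_apply]
  refine Submodule.sum_mem _ fun i _ => ?_
  rw [LinearMap.smul_apply]
  refine Submodule.smul_mem _ _ ?_
  have h1 := hU _ (co_mem_lie hz i)
  rw [Submodule.baseChange_eq_span] at hv ⊢
  induction hv using Submodule.span_induction with
  | mem x hx =>
    obtain ⟨u, hu, rfl⟩ := hx
    rw [TensorProduct.mk_apply, LinearMap.baseChange_tmul]
    exact Submodule.subset_span ⟨_, h1 u hu, rfl⟩
  | zero => rw [map_zero]; exact Submodule.zero_mem _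
  | add x y _ _ hx hy => rw [map_add]; exact Submodule.add_mem _ hx hy
  | smul a x _ hx => rw [map_smul]; exact Submodule.smul_mem _ _ hx

theorem nab_mem {k : Type} [Field k] [Algebra k ℂ] {X : Type} [AddCommGroup X] [Module k X]
    {δ : Derivation ℚ ℂ ℂ} (hδ : ∀ a : k, δ (algebraMap k ℂ a) = 0) {U : Submodule k X}
    {v : ℂ ⊗[k] X} (hv : v ∈ U.baseChange ℂ) : nab X hδ v ∈ U.baseChange ℂ := by
  rw [Submodule.baseChange_eq_span] at hv ⊢
  induction hv using Submodule.span_induction with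
  | mem x hx =>
    obtain ⟨u, hu, rfl⟩ := hx
    rw [TensorProduct.mk_apply, nab_one]
    exact Submodule.zero_mem _
  | zero => rw [map_zero]; exact Submodule.zero_mem _
  | add x y _ _ hx hy => rw [map_add]; exact Submodule.add_mem _ hx hy
  | smul a x hx' hx =>
    rw [nab_smul]
    exact Submodule.add_mem _ (Submodule.smul_mem _ _ hx') (Submodule.smul_mem _ _ hx)

/-- An endomorphism which maps the rational vectors of the de Rham realisation to rational
vectors. -/
theorem drbEnd_of {e : Module.End ℚ V}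
    (h : ∀ d, ∃ d', e.baseChange ℂ (c ((1 : ℂ) ⊗ₜ[K] d)) = c ((1 : ℂ) ⊗ₜ[K] d')) :
    IsDRBEnd c e := by
  choose f hf using h
  let b := Module.finBasis K D
  let e' : Module.End K D := b.constr K fun i => f (b i)
  refine ⟨e', fun d => ?_⟩
  have key : ((e.baseChange ℂ).restrictScalars ℚ).toAddMonoidHom.comp
      ((c.toLinearMap.toAddMonoidHom).comp (TensorProduct.mk K ℂ D 1).toAddMonoidHom) =
      (c.toLinearMap.toAddMonoidHom).comp ((TensorProduct.mk K ℂ D 1).toAddMonoidHom.comp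
        e'.toAddMonoidHom) := by
    ext x
    change e.baseChange ℂ (c ((1 : ℂ) ⊗ₜ[K] x)) = c ((1 : ℂ) ⊗ₜ[K] e' x)
    conv_lhs => rw [← b.sum_repr x]
    conv_rhs => rw [← b.sum_repr x]
    simp only [map_sum, TensorProduct.tmul_sum]
    refine Finset.sum_congr rfl fun i _ => ?_
    have h1 : e' (b i) = f (b i) := Basis.constr_basis ..
    rw [map_smul e', h1, TensorProduct.tmul_smul, TensorProduct.tmul_smul,
      ← algebraMap_smul ℂ, ← algebraMap_smul ℂ (b.repr x i) ((1 : ℂ) ⊗ₜ[K] f (b i)), map_smul,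
      map_smul, map_smul, hf]
  exact DFunLike.congr_fun key d

section alg

variable [IsAlgClosed K] [Algebra.IsAlgebraic ℚ K] {T : Fam ℚ V} {w : ℕ} {τ : ℂ} (hτ : τ ≠ 0)
  (hT : ∀ r, ∀ φ ∈ T r, ∃ m, r * w = 2 * m ∧ IsDRB τ c m φ)

include hτ hT in
/-- **The operators which commute with the Lie algebra are de Rham-Betti endomorphisms.** -/
theorem drbEnd_of_comm {e : Module.End ℚ V} (he : ∀ x ∈ lie T, e * x = x * e) : IsDRBEnd c e := by
  refine drbEnd_of fun d => ?_
  obtain ⟨d', hd'⟩ := rat_of_nab (k := K) (z := c.symm (e.baseChange ℂ (c ((1 : ℂ) ⊗ₜ[K] d))))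
    (fun a ha => mem_of_der K fun δ => ha δ (der_zero K δ)) (fun δ hδ => by
      refine c.injective ?_
      rw [map_zero]
      obtain ⟨s, z, hz, hs⟩ := ldc_split (c := c) hδ hτ hT
      have h1 := ldc_apply (c := c) hδ (e.baseChange ℂ (c ((1 : ℂ) ⊗ₜ[K] d)))
      have h2 := ldc_one (c := c) hδ d
      rw [hs, ← comm_ext he hz, nab_baseChange, ← h2, hs, map_add, map_smul] at h1
      have h3 := sub_eq_self.1 h1.symm
      exact h3)
  exact ⟨d', by rw [← hd', LinearEquiv.apply_symm_apply]⟩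

omit [Algebra.IsAlgebraic ℚ K] [IsAlgClosed K] [CharZero K] in
theorem eq_top_of_baseChange {S : Submodule K D} (h : S.baseChange ℂ = ⊤) : S = ⊤ := by
  by_contra hne
  obtain ⟨f, hf, hfS⟩ := Submodule.exists_le_ker_of_lt_top S (lt_top_iff_ne_top.2 hne)
  apply hf
  have h1 : S.baseChange ℂ ≤ LinearMap.ker (f.baseChange ℂ) := by
    rw [Submodule.baseChange_eq_span, Submodule.span_le]
    rintro _ ⟨u, hu, rfl⟩
    have h2 : f u = 0 := hfS hu
    change f.baseChange ℂ ((1 : ℂ) ⊗ₜ[K] u) = 0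
    rw [LinearMap.baseChange_tmul, h2, TensorProduct.tmul_zero]
  rw [h, top_le_iff, LinearMap.ker_eq_top] at h1
  refine LinearMap.ext fun d => ?_
  have h3 := LinearMap.congr_fun h1 ((1 : ℂ) ⊗ₜ[K] d)
  rw [LinearMap.baseChange_tmul, LinearMap.zero_apply] at h3
  have h4 := congrArg (TensorProduct.rid K ℂ) h3
  rw [TensorProduct.rid_tmul, map_zero, Algebra.smul_def, mul_one] at h4
  exact (map_eq_zero (algebraMap K ℂ)).1 h4

/-- A subspace which is stable under all derivations is rational. -/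
theorem descent (M : Submodule ℂ (ℂ ⊗[K] D))
    (hM : ∀ (δ : Derivation ℚ ℂ ℂ) (hδ : ∀ a : K, δ (algebraMap K ℂ a) = 0), ∀ y ∈ M,
      nab D hδ y ∈ M) : ∃ U' : Submodule K D, U'.baseChange ℂ = M := by
  classical
  -- a rational complement
  obtain ⟨W, hW⟩ : ∃ W : Submodule K D, IsCompl M (W.baseChange ℂ) := by
    let P : Set (Submodule K D) := {W | M ⊓ W.baseChange ℂ = ⊥}
    have hne : P.Nonempty := ⟨⊥, by
      change M ⊓ (⊥ : Submodule K D).baseChange ℂ = ⊥
      rw [Submodule.baseChange_bot, inf_bot_eq]⟩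
    obtain ⟨W, hWP, hmax⟩ := set_has_maximal_iff_noetherian.2
      (inferInstance : IsNoetherian K D) P hne
    have hW0 : M ⊓ W.baseChange ℂ = ⊥ := hWP
    refine ⟨W, ⟨disjoint_iff.2 hW0, codisjoint_iff.2 ?_⟩⟩
    have h1 : ∀ d : D, (1 : ℂ) ⊗ₜ[K] d ∈ M ⊔ W.baseChange ℂ := by
      intro d
      by_contra hd
      have hdW : d ∉ W := by
        intro h
        exact hd (Submodule.mem_sup_right (Submodule.tmul_mem_baseChange_of_mem 1 h))
      have hlt : W < W ⊔ Submodule.span K {d} := by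
        refine lt_of_le_of_ne le_sup_left fun h => hdW ?_
        rw [h]
        exact Submodule.mem_sup_right (Submodule.mem_span_singleton_self d)
      refine hmax _ ?_ hlt
      change M ⊓ (W ⊔ Submodule.span K {d}).baseChange ℂ = ⊥
      rw [eq_bot_iff]
      rintro y ⟨hy1, hy2⟩
      have h2 : (W ⊔ Submodule.span K {d}).baseChange ℂ ≤
          W.baseChange ℂ ⊔ Submodule.span ℂ {(1 : ℂ) ⊗ₜ[K] d} := by
        rw [Submodule.baseChange_eq_span, Submodule.span_le]
        rintro _ ⟨u, hu, rfl⟩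
        obtain ⟨u1, hu1, u2, hu2, rfl⟩ := Submodule.mem_sup.1 hu
        obtain ⟨a, rfl⟩ := Submodule.mem_span_singleton.1 hu2
        rw [TensorProduct.mk_apply, TensorProduct.tmul_add]
        refine Submodule.add_mem_sup (Submodule.tmul_mem_baseChange_of_mem 1 hu1) ?_
        rw [TensorProduct.tmul_smul, ← algebraMap_smul ℂ]
        exact Submodule.smul_mem _ _ (Submodule.mem_span_singleton_self _)
      obtain ⟨y1, hy1', y2, hy2', rfl⟩ := Submodule.mem_sup.1 (h2 hy2)
      obtain ⟨a, rfl⟩ := Submodule.mem_span_singleton.1 hy2'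
      by_cases ha : a = 0
      · subst ha
        rw [zero_smul, add_zero] at hy1 ⊢
        rw [← hW0]
        exact ⟨hy1, hy1'⟩
      · exfalso
        apply hd
        have h3 : (1 : ℂ) ⊗ₜ[K] d = a⁻¹ • (y1 + a • (1 : ℂ) ⊗ₜ[K] d) - a⁻¹ • y1 := by
          rw [smul_add, smul_smul, inv_mul_cancel₀ ha, one_smul]
          abel
        rw [h3]
        exact Submodule.sub_mem _ (Submodule.mem_sup_left (Submodule.smul_mem _ _ hy1))
          (Submodule.mem_sup_right (Submodule.smul_mem _ _ hy1'))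
    rw [eq_top_iff, ← ((Module.finBasis K D).baseChange ℂ).span_eq, Submodule.span_le]
    rintro _ ⟨i, rfl⟩
    rw [Basis.baseChange_apply]
    exact h1 _
  have key : ∀ d : D, ∃ d' : D, (1 : ℂ) ⊗ₜ[K] d' ∈ M ∧
      (1 : ℂ) ⊗ₜ[K] d - (1 : ℂ) ⊗ₜ[K] d' ∈ W.baseChange ℂ := by
    intro d
    obtain ⟨y, hy, n, hn, hyn⟩ : ∃ y ∈ M, ∃ n ∈ W.baseChange ℂ, y + n = (1 : ℂ) ⊗ₜ[K] d := by
      rw [← Submodule.mem_sup, hW.sup_eq_top]
      exact Submodule.mem_top
    obtain ⟨d', hd'⟩ := rat_of_nab (k := K) (z := y)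
      (fun a ha => mem_of_der K fun δ => ha δ (der_zero K δ)) (fun δ hδ => by
        have h1 := congrArg (nab D hδ) hyn
        rw [nab_one, map_add] at h1
        have h2 : nab D hδ y ∈ M ⊓ W.baseChange ℂ := by
          refine ⟨hM δ hδ y hy, ?_⟩
          rw [eq_neg_of_add_eq_zero_left h1]
          exact Submodule.neg_mem _ (nab_mem hδ hn)
        rwa [hW.inf_eq_bot, Submodule.mem_bot] at h2)
    refine ⟨d', by rwa [← hd'], ?_⟩
    rw [← hyn, ← hd', add_sub_cancel_left]
    exact hn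
  choose f hf1 hf2 using key
  refine ⟨{ carrier := {d | (1 : ℂ) ⊗ₜ[K] d ∈ M}
            zero_mem' := by
              change (1 : ℂ) ⊗ₜ[K] (0 : D) ∈ M
              rw [TensorProduct.tmul_zero]
              exact M.zero_mem
            add_mem' := by
              intro a b ha hb
              change (1 : ℂ) ⊗ₜ[K] (a + b) ∈ M
              rw [TensorProduct.tmul_add]
              exact M.add_mem ha hb
            smul_mem' := by
              intro a d hd
              change (1 : ℂ) ⊗ₜ[K] (a • d) ∈ M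
              rw [TensorProduct.tmul_smul, ← algebraMap_smul ℂ]
              exact M.smul_mem _ hd }, le_antisymm ?_ fun y hy => ?_⟩
  · rw [Submodule.baseChange_eq_span, Submodule.span_le]
    rintro _ ⟨u, hu, rfl⟩
    exact hu
  · let b := (Module.finBasis K D).baseChange ℂ
    have h1 : ∀ i, b i = (1 : ℂ) ⊗ₜ[K] Module.finBasis K D i := fun i => Basis.baseChange_apply ..
    have h2 : y - ∑ i, b.repr y i • (1 : ℂ) ⊗ₜ[K] f (Module.finBasis K D i) ∈
        M ⊓ W.baseChange ℂ := by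
      refine ⟨M.sub_mem hy (M.sum_mem fun i _ => M.smul_mem _ (hf1 _)), ?_⟩
      have h3 : y - ∑ i, b.repr y i • (1 : ℂ) ⊗ₜ[K] f (Module.finBasis K D i) =
          ∑ i, b.repr y i • ((1 : ℂ) ⊗ₜ[K] Module.finBasis K D i -
            (1 : ℂ) ⊗ₜ[K] f (Module.finBasis K D i)) := by
        simp only [smul_sub, Finset.sum_sub_distrib]
        congr 1
        conv_lhs => rw [← b.sum_repr y]
        exact Finset.sum_congr rfl fun i _ => by rw [h1]
      rw [h3]
      exact Submodule.sum_mem _ fun i _ => Submodule.smul_mem _ _ (hf2 _)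
    rw [hW.inf_eq_bot, Submodule.mem_bot, sub_eq_zero] at h2
    rw [h2]
    exact Submodule.sum_mem _ fun i _ => Submodule.smul_mem _ _
      (Submodule.tmul_mem_baseChange_of_mem 1 (hf1 _))

include hτ hT in
/-- **The subspaces stable under the Lie algebra are subobjects.** -/
theorem subobject_of_stable {U : Submodule ℚ V} (hU : ∀ x ∈ lie T, ∀ v ∈ U, x v ∈ U) :
    IsSubobject c U := by
  obtain ⟨U', hU'⟩ := descent (K := K) ((U.baseChange ℂ).comap c.toLinearMap) (fun δ hδ y hy => by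
    have hy' : c y ∈ U.baseChange ℂ := hy
    obtain ⟨s, z, hz, hs⟩ := ldc_split (c := c) hδ hτ hT
    have h1 := ldc_apply (c := c) hδ (c y)
    rw [hs, LinearEquiv.symm_apply_apply] at h1
    change c (nab D hδ y) ∈ U.baseChange ℂ
    have h2 : c (nab D hδ y) = nab V (hQ δ) (c y) - (s • c y + z (c y)) := by
      rw [h1]
      abel
    rw [h2]
    exact Submodule.sub_mem _ (nab_mem _ hy') (Submodule.add_mem _ (Submodule.smul_mem _ _ hy')
      (stable_ext hU hz hy')))
  refine ⟨U', ?_⟩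
  rw [hU']
  exact Submodule.map_comap_eq_of_surjective c.surjective _

end alg

end

end Pool.Agent.E8helper1.TC
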