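import Mathlib
import Pool.Agent.E8helper1.TC.Drb

/-!
# Hodge structures and the Hodge operator
-/

set_option autoImplicit false
set_option linter.unusedSectionVars false

namespace Pool.Agent.E8helper1.TC

open Module TensorProduct Pool.Agent.H204R3.SP Pool.Agent.H204R3.GP Pool.Agent.W522.U
  Pool.Agent.W528.Odd
open Pool.Agent.E8helper1.CT

noncomputable section

section defs

variable {V : Type} [AddCommGroup V] [Module ℚ V]

/-- The form `α` on the Hodge structure `V` of weight `w` with the pieces `H p = V ^ (p, w - p)` is a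
Hodge class: with complex coefficients, it vanishes on all vectors of the types `(p l, w - p l)`
unless the sum of the `p l` is equal to the sum of the `w - p l`. -/
def IsHodge (H : ℤ → Submodule ℂ (ℂ ⊗[ℚ] V)) (w : ℕ) {r : ℕ}
    (α : MultilinearMap ℚ (fun _ : Fin r => V) ℚ) : Prop :=
  ∃ α' : MultilinearMap ℂ (fun _ : Fin r => ℂ ⊗[ℚ] V) ℂ, Extends α α' ∧
    ∀ (p : Fin r → ℤ) (v : Fin r → ℂ ⊗[ℚ] V), (∀ l, v l ∈ H (p l)) →
      2 * ∑ l, p l ≠ r * w → α' v = 0

/-- The endomorphism `e` respects the Hodge decomposition. -/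
def IsHodgeEnd (H : ℤ → Submodule ℂ (ℂ ⊗[ℚ] V)) (e : Module.End ℚ V) : Prop :=
  ∀ p, ∀ v ∈ H p, (e.baseChange ℂ) v ∈ H p

end defs

variable {V : Type} [AddCommGroup V] [Module ℚ V] [FiniteDimensional ℚ V]
  {H : ℤ → Submodule ℂ (ℂ ⊗[ℚ] V)}

/-- A basis of vectors in the pieces of the decomposition. -/
abbrev hbas (hH : DirectSum.IsInternal H) :
    Basis (Σ p : ℤ, Basis.ofVectorSpaceIndex ℂ (H p)) ℂ (ℂ ⊗[ℚ] V) :=
  hH.collectedBasis fun p => Basis.ofVectorSpace ℂ (H p)

theorem hbas_mem (hH : DirectSum.IsInternal H) (i : Σ p : ℤ, Basis.ofVectorSpaceIndex ℂ (H p)) :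
    hbas hH i ∈ H i.1 := hH.collectedBasis_mem _ i

/-- An operator which acts on the pieces of the decomposition by scalars. -/
theorem exists_op (hH : DirectSum.IsInternal H) (f : ℤ → ℂ) :
    ∃ h : Module.End ℂ (ℂ ⊗[ℚ] V), ∀ p, ∀ v ∈ H p, h v = f p • v := by
  let h : Module.End ℂ (ℂ ⊗[ℚ] V) := (hbas hH).constr ℂ fun i => f i.1 • hbas hH i
  refine ⟨h, fun p v hv => ?_⟩
  have key : h.comp (H p).subtype = f p • (H p).subtype := by
    refine (Basis.ofVectorSpace ℂ (H p)).ext fun i => ?_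
    have h1 : ((Basis.ofVectorSpace ℂ (H p) i : H p) : ℂ ⊗[ℚ] V) = hbas hH ⟨p, i⟩ := by
      rw [DirectSum.IsInternal.collectedBasis_coe]
    rw [LinearMap.comp_apply, LinearMap.smul_apply, Submodule.subtype_apply, h1]
    exact Basis.constr_basis ..
  exact LinearMap.congr_fun key ⟨v, hv⟩

variable (hH : DirectSum.IsInternal H) {w : ℕ} {h : Module.End ℂ (ℂ ⊗[ℚ] V)}
  (hh : ∀ p, ∀ v ∈ H p, h v = ((2 * p - w : ℤ) : ℂ) • v)

include hh in
theorem kills_sum {r : ℕ} (α' : MultilinearMap ℂ (fun _ : Fin r => ℂ ⊗[ℚ] V) ℂ) {p : Fin r → ℤ}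
    {v : Fin r → ℂ ⊗[ℚ] V} (hv : ∀ l, v l ∈ H (p l)) :
    ∑ l, α' (Function.update v l (h (v l))) = ((2 * ∑ l, p l - r * w : ℤ) : ℂ) * α' v := by
  have h1 : ∀ l, α' (Function.update v l (h (v l))) = ((2 * p l - w : ℤ) : ℂ) * α' v := by
    intro l
    rw [hh _ _ (hv l), MultilinearMap.map_update_smul, Function.update_eq_self, smul_eq_mul]
  rw [Finset.sum_congr rfl fun l _ => h1 l, ← Finset.sum_mul, ← Int.cast_sum,
    Finset.sum_sub_distrib, ← Finset.mul_sum, Finset.sum_const, Finset.card_univ, Fintype.card_fin]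
  congr 2

include hH hh

/-- A class is a Hodge class if and only if the Hodge operator annihilates it. -/
theorem kills_iff {r : ℕ} (α' : MultilinearMap ℂ (fun _ : Fin r => ℂ ⊗[ℚ] V) ℂ) :
    Kills h α' ↔ ∀ (p : Fin r → ℤ) (v : Fin r → ℂ ⊗[ℚ] V), (∀ l, v l ∈ H (p l)) →
      2 * ∑ l, p l ≠ r * w → α' v = 0 := by
  constructor
  · intro hk p v hv hne
    have h1 := hk v
    rw [kills_sum hh α' hv] at h1
    refine (mul_eq_zero.1 h1).resolve_left fun h2 => hne ?_
    have h3 : (2 * ∑ l, p l - r * w : ℤ) = 0 := by exact_mod_cast h2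
    linarith
  · intro hz
    classical
    have _ : Fintype (Σ p : ℤ, Basis.ofVectorSpaceIndex ℂ (H p)) :=
      FiniteDimensional.fintypeBasisIndex (hbas hH)
    refine kills_of_basis (hbas hH) _ _ fun I => ?_
    have h1 := kills_sum hh α' (v := fun l => hbas hH (I l)) fun l => hbas_mem hH (I l)
    rw [h1]
    by_cases hne : 2 * ∑ l, (I l).1 = (r * w : ℤ)
    · rw [hne, sub_self, Int.cast_zero, zero_mul]
    · rw [hz _ (fun l => hbas hH (I l)) (fun l => hbas_mem hH (I l)) hne, mul_zero]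

/-- The Hodge operator commutes with the endomorphisms of the Hodge structure. -/
theorem hop_comm {e : Module.End ℚ V} (he : IsHodgeEnd H e) :
    h * e.baseChange ℂ = e.baseChange ℂ * h := by
  refine (hbas hH).ext fun i => ?_
  rw [Module.End.mul_apply, Module.End.mul_apply, hh _ _ (hbas_mem hH i),
    hh _ _ (he _ _ (hbas_mem hH i)), map_smul]

theorem isHodge_iff {r : ℕ} (α : MultilinearMap ℚ (fun _ : Fin r => V) ℚ) :
    IsHodge H w α ↔ Kills h (bcm (Ω := ℂ) (Module.finBasis ℚ V) α) := by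
  rw [kills_iff hH hh]
  constructor
  · rintro ⟨α', h1, h2⟩
    rw [← eq_bcm h1]
    exact h2
  · intro h1
    exact ⟨_, extends_bcm α, h1⟩

/-- The components of the Hodge operator annihilate the Hodge classes. -/
theorem co_of_hodge {r : ℕ} {α : MultilinearMap ℚ (fun _ : Fin r => V) ℚ} (hα : IsHodge H w α)
    (i : Basis.ofVectorSpaceIndex ℚ ℂ) : Kills (co h i) α :=
  co_kills ((isHodge_iff hH hh α).1 hα) i

/-- A class annihilated by all components of the Hodge operator is a Hodge class. -/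
theorem hodge_of_co {r : ℕ} {α : MultilinearMap ℚ (fun _ : Fin r => V) ℚ}
    (hα : ∀ i, Kills (co h i) α) : IsHodge H w α := by
  rw [isHodge_iff hH hh]
  obtain ⟨F, -, hs⟩ := exists_co h
  have h1 : ∀ i, co h i ∈ lie (fun s => {φ : MultilinearMap ℚ (fun _ : Fin s => V) ℚ |
      ∃ e : s = r, e ▸ φ = α}) := by
    rintro i s φ ⟨rfl, rfl⟩
    exact hα i
  have h2 : ∀ i, (co h i).baseChange ℂ ∈ lie (extF ℂ (fun s =>
      {φ : MultilinearMap ℚ (fun _ : Fin s => V) ℚ | ∃ e : s = r, e ▸ φ = α})) :=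
    fun i => baseChange_mem (h1 i)
  have h3 : h ∈ lie (extF ℂ (fun s =>
      {φ : MultilinearMap ℚ (fun _ : Fin s => V) ℚ | ∃ e : s = r, e ▸ φ = α})) := by
    rw [hs]
    exact Submodule.sum_mem _ fun i _ => Submodule.smul_mem _ _ (h2 i)
  exact h3 r _ ⟨α, ⟨rfl, rfl⟩, rfl⟩

end

end Pool.Agent.E8helper1.TC
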