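import Mathlib
import Pool.Agent.E8helper1.TC.Hodge

/-!
# De Rham-Betti classes of degree four
-/

set_option autoImplicit false
set_option linter.unusedSectionVars false

namespace Pool.Agent.E8helper1.TC

open Module TensorProduct Pool.Agent.H204R3.SP Pool.Agent.H204R3.GP Pool.Agent.W522.U
  Pool.Agent.W528.Odd
open Pool.Agent.E8helper1.AP (A1 A1_apply exists_orth_proj orth_unique trace_nondeg)
open Pool.Agent.E8helper1.CT

noncomputable section

section defs

variable {K : Type} [Field K] [Algebra K ℂ] {V D : Type} [AddCommGroup V] [Module ℚ V]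
  [AddCommGroup D] [Module K D]

/-- The de Rham-Betti classes on the tensor spaces of an object of weight `w`: multilinear forms in
`r` variables, of degree `m` where `r w = 2 m`. -/
def drbForms (c : ℂ ⊗[K] D ≃ₗ[ℂ] ℂ ⊗[ℚ] V) (w : ℕ) : Fam ℚ V := fun r =>
  {α | ∃ m, r * w = 2 * m ∧ IsDRB (2 * Real.pi * Complex.I) c m α}

/-- The Lie algebra of the operators on the Betti realisation that annihilate all de Rham-Betti
classes on all tensor spaces. -/
def drbLie (c : ℂ ⊗[K] D ≃ₗ[ℂ] ℂ ⊗[ℚ] V) (w : ℕ) : Submodule ℚ (Module.End ℚ V) :=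
  lie (drbForms c w)

/-- The de Rham-Betti classes on the `r`-th tensor power are Hodge classes. -/
def DRBAreHodge (c : ℂ ⊗[K] D ≃ₗ[ℂ] ℂ ⊗[ℚ] V) (w : ℕ) (H : ℤ → Submodule ℂ (ℂ ⊗[ℚ] V)) (r : ℕ) :
    Prop :=
  ∀ α ∈ drbForms c w r, IsHodge H w α

/-- The Hodge classes on all tensor powers are de Rham-Betti classes. -/
def HodgeAreDRB (c : ℂ ⊗[K] D ≃ₗ[ℂ] ℂ ⊗[ℚ] V) (w : ℕ) (H : ℤ → Submodule ℂ (ℂ ⊗[ℚ] V)) : Prop :=
  ∀ (r m : ℕ) (α : MultilinearMap ℚ (fun _ : Fin r => V) ℚ), r * w = 2 * m → IsHodge H w α →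
    IsDRB (2 * Real.pi * Complex.I) c m α

/-- The operator `z` belongs to the centre of the algebra of endomorphisms of the Hodge structure and
is skew for the polarisation `ψ`. -/
def IsSkewCentral (H : ℤ → Submodule ℂ (ℂ ⊗[ℚ] V)) (ψ : V →ₗ[ℚ] V →ₗ[ℚ] ℚ) (z : Module.End ℚ V) :
    Prop :=
  IsHodgeEnd H z ∧ (∀ e, IsHodgeEnd H e → z * e = e * z) ∧ ∀ u v, ψ (z u) v = -ψ u (z v)

/-- The skew central endomorphisms which annihilate all Hodge classes annihilate all de Rham-Betti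
classes. -/
def CentreCondition (c : ℂ ⊗[K] D ≃ₗ[ℂ] ℂ ⊗[ℚ] V) (w : ℕ) (H : ℤ → Submodule ℂ (ℂ ⊗[ℚ] V))
    (ψ : V →ₗ[ℚ] V →ₗ[ℚ] ℚ) : Prop :=
  ∀ z, IsSkewCentral H ψ z →
    (∀ (r : ℕ) (α : MultilinearMap ℚ (fun _ : Fin r => V) ℚ), IsHodge H w α → Kills z α) →
    ∀ r, ∀ α ∈ drbForms c w r, Kills z α

end defs

variable {K : Type} [Field K] [CharZero K] [Algebra K ℂ] {V D : Type} [AddCommGroup V] [Module ℚ V]
  [FiniteDimensional ℚ V] [AddCommGroup D] [Module K D] [FiniteDimensional K D]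
  {c : ℂ ⊗[K] D ≃ₗ[ℂ] ℂ ⊗[ℚ] V} {w : ℕ} {H : ℤ → Submodule ℂ (ℂ ⊗[ℚ] V)}
  {ψ : V →ₗ[ℚ] V →ₗ[ℚ] ℚ}

theorem kills_two {x : Module.End ℚ V} (h : Kills x (two ψ)) (u v : V) :
    ψ (x u) v + ψ u (x v) = 0 := by
  have h1 := h ![u, v]
  rw [Fin.sum_univ_two] at h1
  have f0 : (![u, v] : Fin 2 → V) 0 = u := rfl
  have f1 : (![u, v] : Fin 2 → V) 1 = v := rfl
  rw [f0, f1, up0, up1] at h1
  exact h1

theorem kills_add {k : Type} [Field k] {X : Type} [AddCommGroup X] [Module k X] {r : ℕ}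
    {φ : MultilinearMap k (fun _ : Fin r => X) k} {x y : Module.End k X} (hx : Kills x φ)
    (hy : Kills y φ) : Kills (x + y) φ := by
  intro v
  have h3 := congrArg₂ (fun x y : k => x + y) (hx v) (hy v)
  simp only [add_zero] at h3
  rw [← h3, ← Finset.sum_add_distrib]
  refine Finset.sum_congr rfl fun k _ => ?_
  rw [LinearMap.add_apply, MultilinearMap.map_update_add]

theorem kills_sub {k : Type} [Field k] {X : Type} [AddCommGroup X] [Module k X] {r : ℕ}
    {φ : MultilinearMap k (fun _ : Fin r => X) k} {x y : Module.End k X} (hx : Kills x φ)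
    (hy : Kills y φ) : Kills (x - y) φ := by
  intro v
  have h3 := congrArg₂ (fun x y : k => x - y) (hx v) (hy v)
  simp only [sub_zero] at h3
  rw [← h3, ← Finset.sum_sub_distrib]
  refine Finset.sum_congr rfl fun k _ => ?_
  rw [LinearMap.sub_apply, MultilinearMap.map_update_sub]

/-- **Main theorem.** -/
theorem drb_iff (hH : DirectSum.IsInternal H) (hnd : ∀ u, (∀ v, ψ u v = 0) → u = 0)
    (hψH : IsHodge H w (two ψ)) (hψ : IsDRB (2 * Real.pi * Complex.I) c w (two ψ))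
    (hss : HasCompl (drbLie c w))
    (hend : ∀ e : Module.End ℚ V, (∀ x ∈ drbLie c w, e * x = x * e) ↔ IsHodgeEnd H e)
    (hcase : (∀ z, IsSkewCentral H ψ z → z = 0) ∨ HodgeAreDRB c w H) :
    (∀ r, DRBAreHodge c w H r) ↔ DRBAreHodge c w H 4 ∧ CentreCondition c w H ψ := by
  have hτ : (2 * Real.pi * Complex.I : ℂ) ≠ 0 := Complex.two_pi_I_ne_zero
  refine ⟨fun h => ⟨h 4, fun z _ hz r α hα => hz r α (h r α hα)⟩, ?_⟩
  rintro ⟨h4, hC⟩ r α hα
  obtain ⟨h, hh'⟩ := exists_op hH fun p => ((2 * p - w : ℤ) : ℂ)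
  have hh : ∀ p, ∀ v ∈ H p, h v = ((2 * p - w : ℤ) : ℂ) • v := hh'
  refine hodge_of_co hH hh fun i => ?_
  have horth : orth (drbLie c w) (drbLie c w) = ⊥ := orth_bot hss
  obtain ⟨P, hP1, hP2⟩ := exists_orth_proj _ horth
  have hpf : pform ψ P ∈ drbForms c w 4 := by
    refine ⟨2 * w, by ring, ?_⟩
    exact pform_drb hτ (fun r φ hφ => ⟨hφ.choose, hφ.choose_spec.2⟩) horth hψ hP1 hP2
  set x := co h i with hx
  have hxs : ∀ u v, ψ (x u) v + ψ u (x v) = 0 := kills_two (co_of_hodge hH hh hψH i)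
  have hx4 : Kills x (pform ψ P) := co_of_hodge hH hh (h4 _ hpf) i
  have hcomm := split_of hnd hxs horth (fun a ha b hb => lie_bracket ha hb) hP1 hP2 hx4
  have hz1 : IsHodgeEnd H (x - P x) := (hend _).1 hcomm
  have hz2 : ∀ e, IsHodgeEnd H e → (x - P x) * e = e * (x - P x) := by
    intro e he
    have h1 : x * e = e * x := co_comm (hop_comm hH hh he) i
    have h2 := (hend e).2 he _ (hP1 x)
    rw [sub_mul, mul_sub, h1, h2]
  have h2ψ : two ψ ∈ drbForms c w 2 := ⟨w, rfl, hψ⟩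
  have hz3 : ∀ u v, ψ ((x - P x) u) v = -ψ u ((x - P x) v) := by
    intro u v
    have e1 := hxs u v
    have e2 := kills_two (hP1 x 2 _ h2ψ) u v
    rw [LinearMap.sub_apply, LinearMap.sub_apply, map_sub, map_sub, LinearMap.sub_apply]
    linear_combination e1 - e2
  have key : Kills (x - P x) α := by
    rcases hcase with h0 | h0
    · rw [h0 _ ⟨hz1, hz2, hz3⟩]
      exact (lie (fun s => {φ : MultilinearMap ℚ (fun _ : Fin s => V) ℚ |
        φ ∈ drbForms c w s})).zero_mem r α hα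
    · refine hC _ ⟨hz1, hz2, hz3⟩ (fun s β hβ => ?_) r α hα
      have e1 : Kills x β := co_of_hodge hH hh hβ i
      by_cases hs : ∃ m, s * w = 2 * m
      · obtain ⟨m, hm⟩ := hs
        have e2 : Kills (P x) β := hP1 x s β ⟨m, hm, h0 s m β hm hβ⟩
        exact kills_sub e1 e2
      · obtain ⟨α', h5, h6⟩ := hβ
        have h7 : α' = 0 := by
          refine Basis.ext_multilinear (fun _ => hbas hH) fun I => ?_
          refine h6 (fun l => (I l).1) _ (fun l => hbas_mem hH (I l)) fun h8 => hs ?_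
          obtain ⟨m, hm⟩ : Even (s * w : ℤ) := ⟨∑ l, (I l).1, by rw [← h8]; ring⟩
          refine ⟨m.toNat, ?_⟩
          have : (0 : ℤ) ≤ s * w := by positivity
          zify
          rw [hm, Int.toNat_of_nonneg (by omega)]
          ring
        have h8 : β = 0 := by
          ext v
          have h9 := h5 v
          rw [h7] at h9
          have h10 : (algebraMap ℚ ℂ) (β v) = 0 := h9.symm
          exact (map_eq_zero (algebraMap ℚ ℂ)).1 h10
        rw [h8]
        intro v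
        exact Finset.sum_eq_zero fun l _ => rfl
  have key2 : Kills (P x) α := hP1 x r α hα
  have key3 := kills_add key key2
  rwa [sub_add_cancel] at key3

end

end Pool.Agent.E8helper1.TC
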