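import Mathlib
import Pool.Agent.E8helper1.TC.Conn
import Pool.Agent.E8helper1.TC.DrbMain

/-!
# The de Rham-Betti conjecture and the classes of degree four: final form
-/

set_option autoImplicit false
set_option linter.unusedSectionVars false

namespace Pool.Agent.E8helper1.TC

open Module TensorProduct Pool.Agent.H204R3.SP Pool.Agent.H204R3.GP Pool.Agent.W522.U
  Pool.Agent.W528.Odd
open Pool.Agent.E8helper1.CT

noncomputable section

variable {K : Type} [Field K] [CharZero K] [Algebra K ℂ] {V D : Type} [AddCommGroup V] [Module ℚ V]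
  [FiniteDimensional ℚ V] [AddCommGroup D] [Module K D] [FiniteDimensional K D]
  {c : ℂ ⊗[K] D ≃ₗ[ℂ] ℂ ⊗[ℚ] V} {w : ℕ} {H : ℤ → Submodule ℂ (ℂ ⊗[ℚ] V)}
  {ψ : V →ₗ[ℚ] V →ₗ[ℚ] ℚ}

theorem extends_two (B : V →ₗ[ℚ] V →ₗ[ℚ] ℚ) :
    Extends (two B) (two (LinearMap.BilinForm.baseChange ℂ B :
      ℂ ⊗[ℚ] V →ₗ[ℂ] ℂ ⊗[ℚ] V →ₗ[ℂ] ℂ)) := by
  intro v
  rw [two_apply, two_apply]
  change LinearMap.BilinForm.baseChange ℂ B _ _ = _
  rw [LinearMap.BilinForm.baseChange_tmul]
  simp [Algebra.smul_def]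

/-- The composition of a de Rham-Betti form and a de Rham-Betti endomorphism. -/
theorem drb_comp {τ : ℂ} {e : Module.End ℚ V} (he : IsDRBEnd c e) (hψ : IsDRB τ c w (two ψ)) :
    IsDRB τ c w (two (ψ.comp e)) := by
  obtain ⟨e', he'⟩ := he
  obtain ⟨α', β, h1, h2⟩ := hψ
  have h3 : two (LinearMap.BilinForm.baseChange ℂ ψ : ℂ ⊗[ℚ] V →ₗ[ℂ] ℂ ⊗[ℚ] V →ₗ[ℂ] ℂ) = α' :=
    extends_unique (extends_two ψ) h1
  have h4 : (LinearMap.BilinForm.baseChange ℂ (ψ.comp e) : ℂ ⊗[ℚ] V →ₗ[ℂ] ℂ ⊗[ℚ] V →ₗ[ℂ] ℂ) =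
      LinearMap.comp (LinearMap.BilinForm.baseChange ℂ ψ : ℂ ⊗[ℚ] V →ₗ[ℂ] ℂ ⊗[ℚ] V →ₗ[ℂ] ℂ)
        (e.baseChange ℂ) := by
    refine ((Module.finBasis ℚ V).baseChange ℂ).ext fun i => ?_
    refine ((Module.finBasis ℚ V).baseChange ℂ).ext fun j => ?_
    rw [Basis.baseChange_apply, Basis.baseChange_apply, LinearMap.comp_apply,
      LinearMap.baseChange_tmul]
    change LinearMap.BilinForm.baseChange ℂ (ψ.comp e) _ _ =
      LinearMap.BilinForm.baseChange ℂ ψ _ _
    rw [LinearMap.BilinForm.baseChange_tmul, LinearMap.BilinForm.baseChange_tmul]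
    rfl
  refine ⟨_, β.compLinearMap (fun i : Fin 2 => if i = 0 then e' else LinearMap.id),
    extends_two _, fun d => ?_⟩
  rw [h4, two_apply, LinearMap.comp_apply, he', MultilinearMap.compLinearMap_apply]
  have h5 := h2 ![e' (d 0), d 1]
  rw [← h3, two_apply] at h5
  have h6 : (fun i : Fin 2 => (if i = 0 then e' else LinearMap.id : Module.End K D) (d i)) =
      ![e' (d 0), d 1] := by
    funext i
    fin_cases i <;> rfl
  rw [h6]
  exact h5

theorem comm_of_drbEnd (hnd : ∀ u, (∀ v, ψ u v = 0) → u = 0)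
    (hψ : IsDRB (2 * Real.pi * Complex.I) c w (two ψ)) {e : Module.End ℚ V} (he : IsDRBEnd c e)
    {x : Module.End ℚ V} (hx : x ∈ drbLie c w) : e * x = x * e := by
  refine LinearMap.ext fun u => ?_
  rw [Module.End.mul_apply, Module.End.mul_apply, ← sub_eq_zero]
  refine hnd _ fun v => ?_
  have h1 := kills_two (hx 2 _ ⟨w, rfl, hψ⟩) (e u) v
  have h2 := kills_two (hx 2 _ ⟨w, rfl, drb_comp he hψ⟩) u v
  simp only [LinearMap.comp_apply] at h2
  rw [map_sub, LinearMap.sub_apply]
  linear_combination h2 - h1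

theorem mem_map_baseChange {U : Submodule ℚ V} {U' : Submodule K D}
    (h : (U'.baseChange ℂ).map c.toLinearMap = U.baseChange ℂ) {d : D} (hd : d ∈ U') :
    c ((1 : ℂ) ⊗ₜ[K] d) ∈ U.baseChange ℂ := by
  rw [← h]
  exact Submodule.mem_map_of_mem (f := c.toLinearMap)
    (Submodule.tmul_mem_baseChange_of_mem 1 hd)

theorem baseChange_eq_on {e f : Module.End ℚ V} {U : Submodule ℚ V} (h : ∀ u ∈ U, e u = f u)
    {v : ℂ ⊗[ℚ] V} (hv : v ∈ U.baseChange ℂ) : e.baseChange ℂ v = f.baseChange ℂ v := by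
  rw [Submodule.baseChange_eq_span] at hv
  induction hv using Submodule.span_induction with
  | mem x hx =>
    obtain ⟨u, hu, rfl⟩ := hx
    rw [TensorProduct.mk_apply, LinearMap.baseChange_tmul, LinearMap.baseChange_tmul, h u hu]
  | zero => rw [map_zero, map_zero]
  | add x y _ _ hx hy => rw [map_add, map_add, hx, hy]
  | smul a x _ hx => rw [map_smul, map_smul, hx]

/-- The projection to a subobject along a complementary subobject is an endomorphism. -/
theorem drbEnd_proj {U₁ U₂ : Submodule ℚ V} (h1 : IsSubobject c U₁) (h2 : IsSubobject c U₂)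
    (hc : IsCompl U₁ U₂) {e : Module.End ℚ V} (he1 : ∀ u ∈ U₁, e u = 0) (he2 : ∀ u ∈ U₂, e u = u) :
    IsDRBEnd c e := by
  obtain ⟨D₁, hD₁⟩ := h1
  obtain ⟨D₂, hD₂⟩ := h2
  have htop : D₁ ⊔ D₂ = ⊤ := by
    refine eq_top_of_baseChange (K := K) ?_
    have h3 : (((D₁ ⊔ D₂).baseChange ℂ).map c.toLinearMap : Submodule ℂ (ℂ ⊗[ℚ] V)) = ⊤ := by
      rw [eq_top_iff]
      have h4 : (U₁.baseChange ℂ ⊔ U₂.baseChange ℂ : Submodule ℂ (ℂ ⊗[ℚ] V)) = ⊤ := by
        rw [eq_top_iff, ← ((Module.finBasis ℚ V).baseChange ℂ).span_eq, Submodule.span_le]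
        rintro _ ⟨i, rfl⟩
        rw [Basis.baseChange_apply]
        obtain ⟨a, ha, b, hb, hab⟩ := Submodule.mem_sup.1
          (show Module.finBasis ℚ V i ∈ U₁ ⊔ U₂ by rw [hc.sup_eq_top]; exact Submodule.mem_top)
        rw [← hab, TensorProduct.tmul_add]
        exact Submodule.add_mem_sup (Submodule.tmul_mem_baseChange_of_mem 1 ha)
          (Submodule.tmul_mem_baseChange_of_mem 1 hb)
      rw [← h4, ← hD₁, ← hD₂, ← Submodule.map_sup]
      refine Submodule.map_mono (sup_le ?_ ?_)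
      · exact Submodule.baseChange_mono _ le_sup_left
      · exact Submodule.baseChange_mono _ le_sup_right
    have h5 := Submodule.comap_map_eq_of_injective c.injective ((D₁ ⊔ D₂).baseChange ℂ)
    change Submodule.comap c.toLinearMap (Submodule.map c.toLinearMap _) = _ at h5
    rw [h3, Submodule.comap_top] at h5
    exact h5.symm
  refine drbEnd_of fun d => ?_
  obtain ⟨a, ha, b, hb, hab⟩ := Submodule.mem_sup.1
    (show d ∈ D₁ ⊔ D₂ by rw [htop]; exact Submodule.mem_top)
  refine ⟨b, ?_⟩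
  rw [← hab, TensorProduct.tmul_add, map_add, map_add,
    baseChange_eq_on (f := 0) he1 (mem_map_baseChange hD₁ ha),
    baseChange_eq_on (f := LinearMap.id) he2 (mem_map_baseChange hD₂ hb), LinearMap.baseChange_zero,
    LinearMap.baseChange_id]
  simp

variable [IsAlgClosed K] [Algebra.IsAlgebraic ℚ K]

/-- Complements of the subobjects are complements of the stable subspaces. -/
theorem hasCompl_of (hnd : ∀ u, (∀ v, ψ u v = 0) → u = 0)
    (hψ : IsDRB (2 * Real.pi * Complex.I) c w (two ψ))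
    (hsub : ∀ U : Submodule ℚ V, IsSubobject c U → ∃ U', IsSubobject c U' ∧ IsCompl U U') :
    HasCompl (drbLie c w) := by
  intro U hU
  have h1 : IsSubobject c U := subobject_of_stable (T := drbForms c w) Complex.two_pi_I_ne_zero
    (fun r φ hφ => hφ) hU
  obtain ⟨U', h2, hc⟩ := hsub U h1
  refine ⟨U', fun x hx v hv => ?_, hc⟩
  let e : Module.End ℚ V := U'.subtype.comp (Submodule.projectionOnto U' U hc.symm)
  have he1 : ∀ u ∈ U, e u = 0 := by
    intro u hu
    change U'.subtype (Submodule.projectionOnto U' U hc.symm u) = 0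
    rw [(Submodule.projectionOnto_apply_eq_zero_iff hc.symm).2 hu, map_zero]
  have he2 : ∀ u ∈ U', e u = u := by
    intro u hu
    change ((Submodule.projectionOnto U' U hc.symm u : U') : V) = u
    have := Submodule.projectionOnto_apply_left hc.symm ⟨u, hu⟩
    exact congrArg Subtype.val this
  have h3 := comm_of_drbEnd hnd hψ (drbEnd_proj h1 h2 hc he1 he2) hx
  have h4 := LinearMap.congr_fun h3 v
  rw [Module.End.mul_apply, Module.End.mul_apply, he2 v hv] at h4
  rw [← h4]
  exact Subtype.coe_prop _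

omit [IsAlgClosed K] [Algebra.IsAlgebraic ℚ K] in
/-- The eigenspaces of the operator `h`. -/
theorem mem_of_eigen (hH : DirectSum.IsInternal H) {h : Module.End ℂ (ℂ ⊗[ℚ] V)}
    (hh : ∀ p, ∀ v ∈ H p, h v = ((2 * p - w : ℤ) : ℂ) • v) {p : ℤ} {z : ℂ ⊗[ℚ] V}
    (hz : h z = ((2 * p - w : ℤ) : ℂ) • z) : z ∈ H p := by
  set b := hbas hH with hb
  have h1 : ∀ i, b.repr (h z) i = ((2 * i.1 - w : ℤ) : ℂ) * b.repr z i := by
    have h2 : h z = ∑ i ∈ (b.repr z).support, (((2 * i.1 - w : ℤ) : ℂ) * b.repr z i) • b i := by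
      conv_lhs => rw [← b.linearCombination_repr z]
      rw [Finsupp.linearCombination_apply, Finsupp.sum, map_sum]
      refine Finset.sum_congr rfl fun i _ => ?_
      rw [map_smul, hh _ _ (hbas_mem hH i), smul_smul, mul_comm]
    intro i
    rw [h2, map_sum, Finsupp.finset_sum_apply]
    simp only [map_smul, Basis.repr_self, Finsupp.smul_apply, smul_eq_mul]
    by_cases hi : i ∈ (b.repr z).support
    · rw [Finset.sum_eq_single_of_mem i hi]
      · rw [Finsupp.single_eq_same, mul_one]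
      · intro j _ hj
        rw [Finsupp.single_eq_of_ne (Ne.symm hj), mul_zero]
    · rw [Finsupp.notMem_support_iff.1 hi, mul_zero]
      refine Finset.sum_eq_zero fun j hj => ?_
      rw [Finsupp.single_eq_of_ne, mul_zero]
      rintro rfl
      exact hi hj
  rw [← b.linearCombination_repr z, Finsupp.linearCombination_apply, Finsupp.sum]
  refine Submodule.sum_mem _ fun i hi => Submodule.smul_mem _ _ ?_
  have h3 := h1 i
  rw [hz, map_smul, Finsupp.smul_apply, smul_eq_mul] at h3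
  have h4 := mul_right_cancel₀ (Finsupp.mem_support_iff.1 hi) h3
  have h5 : p = i.1 := by
    have : (2 * p - w : ℤ) = 2 * i.1 - w := by exact_mod_cast h4
    omega
  rw [h5]
  exact hbas_mem hH i

omit [IsAlgClosed K] [Algebra.IsAlgebraic ℚ K] in
/-- If `ψ` and its composition with `e` are Hodge classes, then `e` respects the Hodge
decomposition. -/
theorem hodgeEnd_of_comp (hH : DirectSum.IsInternal H) (hnd : ∀ u, (∀ v, ψ u v = 0) → u = 0)
    (hψH : IsHodge H w (two ψ)) {e : Module.End ℚ V} (he : IsHodge H w (two (ψ.comp e))) :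
    IsHodgeEnd H e := by
  obtain ⟨h, hh'⟩ := exists_op hH fun p => ((2 * p - w : ℤ) : ℂ)
  have hh : ∀ p, ∀ v ∈ H p, h v = ((2 * p - w : ℤ) : ℂ) • v := hh'
  have h1 : ∀ i, e * co h i = co h i * e := by
    intro i
    refine LinearMap.ext fun u => ?_
    rw [Module.End.mul_apply, Module.End.mul_apply, ← sub_eq_zero]
    refine hnd _ fun v => ?_
    have h2 := kills_two (co_of_hodge hH hh hψH i) (e u) v
    have h3 := kills_two (co_of_hodge hH hh he i) u v
    simp only [LinearMap.comp_apply] at h3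
    rw [map_sub, LinearMap.sub_apply]
    linear_combination h3 - h2
  intro p v hv
  refine mem_of_eigen hH hh ?_
  obtain ⟨F, -, hs⟩ := exists_co h
  have h4 : h (e.baseChange ℂ v) = e.baseChange ℂ (h v) := by
    rw [hs, LinearMap.sum_apply, LinearMap.sum_apply, map_sum]
    refine Finset.sum_congr rfl fun i _ => ?_
    rw [LinearMap.smul_apply, LinearMap.smul_apply, map_smul, ← Module.End.mul_apply,
      ← Module.End.mul_apply, ← LinearMap.baseChange_mul, ← LinearMap.baseChange_mul, h1]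
  rw [h4, hh p v hv, map_smul]

section four

variable {k X : Type} [Field k] [AddCommGroup X] [Module k X]

/-- The exterior product of two bilinear forms. -/
def four (a b : X →ₗ[k] X →ₗ[k] k) : MultilinearMap k (fun _ : Fin 4 => X) k where
  toFun v := a (v 0) (v 1) * b (v 2) (v 3)
  map_update_add' := by
    intro hd v i x y
    obtain rfl : hd = instDecidableEqFin 4 := Subsingleton.elim _ _
    obtain ⟨h0, h1, h2, h3⟩ := update4 v x
    obtain ⟨g0, g1, g2, g3⟩ := update4 v y
    obtain ⟨f0, f1, f2, f3⟩ := update4 v (x + y)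
    fin_cases i
    · rw [show (⟨0, by omega⟩ : Fin 4) = 0 from rfl, h0, g0, f0]
      simp [map_add, add_mul]
    · rw [show (⟨1, by omega⟩ : Fin 4) = 1 from rfl, h1, g1, f1]
      simp [map_add, add_mul]
    · rw [show (⟨2, by omega⟩ : Fin 4) = 2 from rfl, h2, g2, f2]
      simp [map_add, mul_add]
    · rw [show (⟨3, by omega⟩ : Fin 4) = 3 from rfl, h3, g3, f3]
      simp [map_add, mul_add]
  map_update_smul' := by
    intro hd v i c x
    obtain rfl : hd = instDecidableEqFin 4 := Subsingleton.elim _ _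
    obtain ⟨h0, h1, h2, h3⟩ := update4 v x
    obtain ⟨f0, f1, f2, f3⟩ := update4 v (c • x)
    fin_cases i
    · rw [show (⟨0, by omega⟩ : Fin 4) = 0 from rfl, h0, f0]
      simp [mul_assoc]
    · rw [show (⟨1, by omega⟩ : Fin 4) = 1 from rfl, h1, f1]
      simp [mul_assoc]
    · rw [show (⟨2, by omega⟩ : Fin 4) = 2 from rfl, h2, f2]
      simp [mul_left_comm]
    · rw [show (⟨3, by omega⟩ : Fin 4) = 3 from rfl, h3, f3]
      simp [mul_left_comm]

theorem four_apply (a b : X →ₗ[k] X →ₗ[k] k) (v : Fin 4 → X) :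
    four a b v = a (v 0) (v 1) * b (v 2) (v 3) := rfl

/-- A form of degree two as a bilinear form. -/
def bil (β : MultilinearMap k (fun _ : Fin 2 => X) k) : X →ₗ[k] X →ₗ[k] k :=
  LinearMap.mk₂ k (fun d e => β ![d, e])
    (fun d d' e => by
      have := β.map_update_add ![d, e] 0 d d'
      rwa [up0, up0, up0] at this)
    (fun a d e => by
      have := β.map_update_smul ![d, e] 0 a d
      rwa [up0, up0] at this)
    (fun d e e' => by
      have := β.map_update_add ![d, e] 1 e e'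
      rwa [up1, up1, up1] at this)
    (fun a d e => by
      have := β.map_update_smul ![d, e] 1 a e
      rwa [up1, up1] at this)

theorem two_bil (β : MultilinearMap k (fun _ : Fin 2 => X) k) : two (bil β) = β := by
  ext v
  rw [two_apply]
  change β ![v 0, v 1] = β v
  congr 1
  funext i
  fin_cases i <;> rfl

theorem kills_four {a b : X →ₗ[k] X →ₗ[k] k} {x : Module.End k X} (hb : Kills x (two b))
    (h : Kills x (four a b)) (h0 : two b ≠ 0) : Kills x (two a) := by
  obtain ⟨w, hw⟩ : ∃ w : Fin 2 → X, b (w 0) (w 1) ≠ 0 := by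
    by_contra hcon
    push Not at hcon
    exact h0 (MultilinearMap.ext fun w => hcon w)
  have hb' : ∀ u v, b (x u) v + b u (x v) = 0 := by
    intro u v
    have h1 := hb ![u, v]
    rw [Fin.sum_univ_two] at h1
    have f0 : (![u, v] : Fin 2 → X) 0 = u := rfl
    have f1 : (![u, v] : Fin 2 → X) 1 = v := rfl
    rw [f0, f1, up0, up1] at h1
    exact h1
  have key : ∀ u v, a (x u) v + a u (x v) = 0 := by
    intro u v
    have h1 := h ![u, v, w 0, w 1]
    obtain ⟨e0, -, -, -⟩ := update4 ![u, v, w 0, w 1] (x u)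
    obtain ⟨-, e1, -, -⟩ := update4 ![u, v, w 0, w 1] (x v)
    obtain ⟨-, -, e2, -⟩ := update4 ![u, v, w 0, w 1] (x (w 0))
    obtain ⟨-, -, -, e3⟩ := update4 ![u, v, w 0, w 1] (x (w 1))
    rw [Fin.sum_univ_four] at h1
    have f0 : (![u, v, w 0, w 1] : Fin 4 → X) 0 = u := rfl
    have f1 : (![u, v, w 0, w 1] : Fin 4 → X) 1 = v := rfl
    have f2 : (![u, v, w 0, w 1] : Fin 4 → X) 2 = w 0 := rfl
    have f3 : (![u, v, w 0, w 1] : Fin 4 → X) 3 = w 1 := rfl
    rw [f0, f1, f2, f3, e0, e1, e2, e3, four_apply, four_apply, four_apply, four_apply] at h1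
    have h2 : a (x u) v * b (w 0) (w 1) + a u (x v) * b (w 0) (w 1) +
        a u v * b (x (w 0)) (w 1) + a u v * b (w 0) (x (w 1)) = 0 := h1
    have h3 := hb' (w 0) (w 1)
    have h4 : (a (x u) v + a u (x v)) * b (w 0) (w 1) = 0 := by
      linear_combination h2 - a u v * h3
    exact (mul_eq_zero.1 h4).resolve_right hw
  intro v
  rw [Fin.sum_univ_two, two_apply, two_apply]
  have h5 := key (v 0) (v 1)
  simpa using h5

end four

omit [IsAlgClosed K] [Algebra.IsAlgebraic ℚ K] in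
theorem drb_four {τ : ℂ} {a b : V →ₗ[ℚ] V →ₗ[ℚ] ℚ} {m m' : ℕ} (ha : IsDRB τ c m (two a))
    (hb : IsDRB τ c m' (two b)) : IsDRB τ c (m + m') (four a b) := by
  obtain ⟨α₁, β₁, h1, h2⟩ := ha
  obtain ⟨α₂, β₂, h3, h4⟩ := hb
  refine ⟨four (LinearMap.BilinForm.baseChange ℂ a) (LinearMap.BilinForm.baseChange ℂ b),
    four (bil β₁) (bil β₂), fun v => ?_, fun d => ?_⟩
  · rw [four_apply, four_apply]
    have e1 := extends_two a ![v 0, v 1]
    have e2 := extends_two b ![v 2, v 3]
    rw [two_apply, two_apply] at e1 e2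
    rw [map_mul]
    exact congrArg₂ (· * ·) e1 e2
  · have e1 := h2 ![d 0, d 1]
    have e2 := h4 ![d 2, d 3]
    rw [← extends_unique (extends_two a) h1, two_apply] at e1
    rw [← extends_unique (extends_two b) h3, two_apply] at e2
    rw [four_apply, four_apply, map_mul, pow_add]
    have e3 : ∀ x y z t : ℂ, x * y * (z * t) = (x * z) * (y * t) := fun x y z t => by ring
    rw [e3]
    exact congrArg₂ (· * ·) e1 e2

omit [IsAlgClosed K] [Algebra.IsAlgebraic ℚ K] in
/-- The classes of degree two are determined by those of degree four. -/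
theorem hodge_two_of_four (hH : DirectSum.IsInternal H) (hnd : ∀ u, (∀ v, ψ u v = 0) → u = 0)
    (hψH : IsHodge H w (two ψ)) (hψ : IsDRB (2 * Real.pi * Complex.I) c w (two ψ))
    (h4 : DRBAreHodge c w H 4) : DRBAreHodge c w H 2 := by
  rintro β ⟨m, hm, hβ⟩
  obtain rfl : m = w := by omega
  obtain ⟨h, hh'⟩ := exists_op hH fun p => ((2 * p - m : ℤ) : ℂ)
  have hh : ∀ p, ∀ v ∈ H p, h v = ((2 * p - m : ℤ) : ℂ) • v := hh'
  refine hodge_of_co hH hh fun i => ?_
  rw [← two_bil β] at hβ ⊢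
  by_cases h0 : two ψ = 0
  · have h1 : ∀ u : V, u = 0 := fun u => hnd u fun v => by
      have := congrArg (fun φ : MultilinearMap ℚ (fun _ : Fin 2 => V) ℚ => φ ![u, v]) h0
      exact this
    intro v
    refine Finset.sum_eq_zero fun l _ => ?_
    rw [two_apply, h1 (Function.update v l _ 0), map_zero, LinearMap.zero_apply]
  · refine kills_four (b := ψ) (co_of_hodge hH hh hψH i) (co_of_hodge hH hh (h4 _ ?_) i) h0
    exact ⟨m + m, by ring, drb_four hβ hψ⟩

/-- **The de Rham-Betti conjecture and the classes of degree four.** -/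
theorem drb_final (hH : DirectSum.IsInternal H) (hnd : ∀ u, (∀ v, ψ u v = 0) → u = 0)
    (hψH : IsHodge H w (two ψ)) (hψ : IsDRB (2 * Real.pi * Complex.I) c w (two ψ))
    (hsub : ∀ U : Submodule ℚ V, IsSubobject c U → ∃ U', IsSubobject c U' ∧ IsCompl U U')
    (hend : ∀ e : Module.End ℚ V, IsHodgeEnd H e → IsDRBEnd c e)
    (hcase : (∀ z, IsSkewCentral H ψ z → z = 0) ∨ HodgeAreDRB c w H) :
    (∀ r, DRBAreHodge c w H r) ↔ DRBAreHodge c w H 4 ∧ CentreCondition c w H ψ := by
  constructor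
  · intro h
    exact ⟨h 4, fun z _ hz r α hα => hz r α (h r α hα)⟩
  rintro ⟨h4, hC⟩
  have h2 := hodge_two_of_four hH hnd hψH hψ h4
  refine (drb_iff hH hnd hψH hψ (hasCompl_of hnd hψ hsub) (fun e => ?_) hcase).2 ⟨h4, hC⟩
  constructor
  · intro h
    have h5 : IsDRBEnd c e := drbEnd_of_comm (T := drbForms c w) Complex.two_pi_I_ne_zero
      (fun r φ hφ => hφ) h
    exact hodgeEnd_of_comp hH hnd hψH (h2 _ ⟨w, rfl, drb_comp h5 hψ⟩)
  · intro h x hx
    exact comm_of_drbEnd hnd hψ (hend e h) hx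

end

end Pool.Agent.E8helper1.TC
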